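import Pool.Agent.Hhelper34.FR.Cyc

/-! The base sequence of signed classes. -/

namespace Pool.Agent.FR

open Finset

/-- The base sequence: signed classes, closed up by `1`. -/
def yb (l i k : ℕ) : ℤ :=
  if k < i then (-1) ^ (k + 1) * (k + 1) else if k < l then (-1) ^ k * (k + 1) else 1

theorem sgn (k : ℕ) : ((-1 : ℤ) ^ k = 1) ∨ ((-1 : ℤ) ^ k = -1) := neg_one_pow_eq_or ℤ k

theorem yb_last {l i : ℕ} (h : i ≤ l) : yb l i l = 1 := by
  unfold yb
  rw [if_neg (by omega), if_neg (by omega)]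

theorem yb_zero {l i : ℕ} (h : 0 < i) : yb l i 0 = -1 := by
  unfold yb
  rw [if_pos h]
  norm_num

theorem yb_class {l i k : ℕ} (h : k < l) : yb l i k = (k + 1 : ℤ) ∨ yb l i k = -(k + 1 : ℤ) := by
  unfold yb
  split_ifs with h1
  · rcases sgn (k + 1) with h2 | h2 <;> rw [h2]
    · left; ring
    · right; ring
  · rcases sgn k with h2 | h2 <;> rw [h2]
    · left; ring
    · right; ring

theorem yb_lo {l i k : ℕ} (h : k < i) : yb l i k = (-1) ^ (k + 1) * (k + 1) := if_pos h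

theorem yb_hi {l i k : ℕ} (h : i ≤ k) (h2 : k < l) : yb l i k = (-1) ^ k * (k + 1) := by
  unfold yb
  rw [if_neg (by omega), if_pos h2]

/-- Ordinary steps. -/
theorem yb_ord {l i k : ℕ} (h : k + 1 < l) (hi : k + 1 ≠ i) :
    ∃ s : ℤ, (s = 1 ∨ s = -1) ∧ yb l i k + yb l i (k + 1) = s ∧
      yb l i (k + 1) - yb l i k = s * (2 * k + 3) := by
  rcases Nat.lt_or_ge (k + 1) i with h1 | h1
  · have e1 : yb l i k = (-1) ^ (k + 1) * (k + 1) := yb_lo (by omega)
    have e2 : yb l i (k + 1) = (-1) ^ (k + 1 + 1) * ((k + 1 : ℕ) + 1) := yb_lo h1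
    refine ⟨(-1) ^ k, sgn k, ?_, ?_⟩
    · rw [e1, e2]
      push_cast
      ring
    · rw [e1, e2]
      push_cast
      ring
  · have e1 : yb l i k = (-1) ^ k * (k + 1) := yb_hi (by omega) (by omega)
    have e2 : yb l i (k + 1) = (-1) ^ (k + 1) * ((k + 1 : ℕ) + 1) := yb_hi (by omega) h
    refine ⟨(-1) ^ (k + 1), sgn (k + 1), ?_, ?_⟩
    · rw [e1, e2]
      push_cast
      ring
    · rw [e1, e2]
      push_cast
      ring

/-- The special step. -/
theorem yb_spec {l i : ℕ} (h : i < l) (hi : 0 < i) :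
    yb l i (i - 1) = (-1) ^ i * i ∧ yb l i i = (-1) ^ i * (i + 1) := by
  obtain ⟨j, rfl⟩ : ∃ j, i = j + 1 := ⟨i - 1, by omega⟩
  constructor
  · unfold yb
    rw [if_pos (by omega)]
    simp
  · unfold yb
    rw [if_neg (by omega), if_pos h]

/-- The last class. -/
theorem yb_pred {l i : ℕ} (h : i < l) : yb l i (l - 1) = (-1) ^ (l - 1) * l := by
  obtain ⟨j, rfl⟩ : ∃ j, l = j + 1 := ⟨l - 1, by omega⟩
  unfold yb
  rw [if_neg (by omega), if_pos (by omega)]
  simp

theorem yb_sum {l i : ℕ} (h : i ≤ l) (hi : 0 < i) :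
    ∑ k ∈ Finset.range l, (yb l i (k + 1) - yb l i k) = 2 := by
  rw [Finset.sum_range_sub, yb_last h, yb_zero hi]
  norm_num

/-! ### Elements of `ZMod (2 l + 1)` -/

variable {l : ℕ}

theorem two_l : (2 : ZMod (2 * l + 1)) * l + 1 = 0 := by
  have : ((2 * l + 1 : ℕ) : ZMod (2 * l + 1)) = 0 := ZMod.natCast_self _
  push_cast at this
  exact this

theorem isUnit_two : IsUnit (2 : ZMod (2 * l + 1)) := by
  refine IsUnit.of_mul_eq_one ((l : ZMod (2 * l + 1)) + 1) ?_
  have := two_l (l := l)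
  linear_combination this

/-- A small nonzero constant is nonzero. -/
theorem const_ne {a : ℕ} (h0 : 0 < a) (h : a < 2 * l + 1) : (a : ZMod (2 * l + 1)) ≠ 0 := by
  intro h1
  rw [ZMod.natCast_eq_zero_iff] at h1
  exact absurd (Nat.le_of_dvd h0 h1) (by omega)

theorem coverA (r : ZMod (2 * l + 1)) (hr : r ≠ 0) :
    ∃ k < l, r = ((k + 1 : ℕ) : ZMod (2 * l + 1)) ∨ r = -((k + 1 : ℕ) : ZMod (2 * l + 1)) := by
  have hv : ((r.val : ℕ) : ZMod (2 * l + 1)) = r := ZMod.natCast_zmod_val r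
  have hlt : r.val < 2 * l + 1 := ZMod.val_lt r
  have h0 : r.val ≠ 0 := by
    intro h
    rw [h] at hv
    exact hr (by rw [← hv]; simp)
  rcases Nat.lt_or_ge l r.val with h | h
  · refine ⟨2 * l + 1 - r.val - 1, by omega, Or.inr ?_⟩
    have e : 2 * l + 1 - r.val - 1 + 1 = 2 * l + 1 - r.val := by omega
    rw [e, Nat.cast_sub (by omega), hv, ZMod.natCast_self]
    ring
  · refine ⟨r.val - 1, by omega, Or.inl ?_⟩
    have e : r.val - 1 + 1 = r.val := by omega
    rw [e, hv]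

/-- Every nonzero element is `±` an odd number at most `2 l - 1`. -/
theorem coverB (r : ZMod (2 * l + 1)) (hr : r ≠ 0) :
    ∃ k < l, r = ((2 * k + 1 : ℕ) : ZMod (2 * l + 1)) ∨
      r = -((2 * k + 1 : ℕ) : ZMod (2 * l + 1)) := by
  have hv : ((r.val : ℕ) : ZMod (2 * l + 1)) = r := ZMod.natCast_zmod_val r
  have hlt : r.val < 2 * l + 1 := ZMod.val_lt r
  have h0 : r.val ≠ 0 := by
    intro h
    rw [h] at hv
    exact hr (by rw [← hv]; simp)
  rcases Nat.even_or_odd' r.val with ⟨m, h | h⟩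
  · refine ⟨l - m, by omega, Or.inr ?_⟩
    have e : 2 * (l - m) + 1 = 2 * l + 1 - r.val := by omega
    rw [e, Nat.cast_sub (by omega), hv, ZMod.natCast_self]
    ring
  · refine ⟨m, by omega, Or.inl ?_⟩
    rw [← h, hv]

/-- Two odd numbers between `1` and `2 l - 1` in the same class are equal. -/
theorem odd_inj {a b : ℕ} (ha : a < l) (hb : b < l)
    (h : ((2 * a + 1 : ℕ) : ZMod (2 * l + 1)) = ((2 * b + 1 : ℕ) : ZMod (2 * l + 1)) ∨
      ((2 * a + 1 : ℕ) : ZMod (2 * l + 1)) = -((2 * b + 1 : ℕ) : ZMod (2 * l + 1))) : a = b := by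
  rcases h with h | h
  · rw [ZMod.natCast_eq_natCast_iff', Nat.mod_eq_of_lt (by omega), Nat.mod_eq_of_lt (by omega)]
      at h
    omega
  · have h1 : (((2 * a + 1) + (2 * b + 1) : ℕ) : ZMod (2 * l + 1)) = 0 := by
      rw [Nat.cast_add, h]
      ring
    rw [ZMod.natCast_eq_zero_iff] at h1
    obtain ⟨c, hc⟩ := h1
    exfalso
    rcases Nat.lt_or_ge c 2 with h2 | h2
    · interval_cases c
      · omega
      · omega
    · have : (2 * l + 1) * 2 ≤ (2 * l + 1) * c := Nat.mul_le_mul_left _ h2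
      omega

/-- The transversal of units. -/
structure IsU (l u : ℕ) : Prop where
  pos : 1 ≤ u
  le : u ≤ l
  cop : Nat.Coprime u (2 * l + 1)

theorem IsU.unit {u : ℕ} (h : IsU l u) : IsUnit (u : ZMod (2 * l + 1)) :=
  (ZMod.isUnit_iff_coprime _ _).2 h.cop

theorem IsU.eq {u w : ℕ} (hu : IsU l u) (hw : IsU l w)
    (h : (u : ZMod (2 * l + 1)) = (w : ZMod (2 * l + 1))) : u = w := by
  have h1 := hu.le
  have h2 := hw.le
  rw [ZMod.natCast_eq_natCast_iff', Nat.mod_eq_of_lt (by omega), Nat.mod_eq_of_lt (by omega)]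
    at h
  exact h

theorem IsU.ne_neg {u w : ℕ} (hu : IsU l u) (hw : IsU l w) :
    (u : ZMod (2 * l + 1)) ≠ -(w : ZMod (2 * l + 1)) := by
  intro h
  have h1 := hu.le
  have h2 := hw.le
  have h3 := hu.pos
  have h4 : ((u + w : ℕ) : ZMod (2 * l + 1)) = 0 := by
    rw [Nat.cast_add, h]
    ring
  exact const_ne (by omega) (by omega) h4

/-- Cancel a unit. -/
theorem cancel {u a : ZMod (2 * l + 1)} (hu : IsUnit u) (h : a * u = 0) : a = 0 := by
  obtain ⟨v, hv⟩ := hu.exists_right_inv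
  have : a * (u * v) = 0 := by rw [← mul_assoc, h, zero_mul]
  rwa [hv, mul_one] at this

end Pool.Agent.FR
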