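import Pool.Agent.Hhelper34.FR.Walk

/-! Rainbow cycles of the flip graph from cyclic data modulo `2 l + 1`. -/

namespace Pool.Agent.FR

open Pool.Agent.FB Finset

/-- The identification of `ZMod (2 l + 1)` with `Fin (2 l + 1)`. -/
def tf {l : ℕ} (c : ZMod (2 * l + 1)) : Fin (2 * l + 1) := c

theorem tf_inj {l : ℕ} {a b : ZMod (2 * l + 1)} : tf a = tf b ↔ a = b := Iff.rfl

/-- The vertex `{a, b}`. -/
def mkPr {l : ℕ} (a b : ZMod (2 * l + 1)) (h : a ≠ b) : Pr (2 * l + 1) :=
  ⟨{tf a, tf b}, Finset.card_pair h⟩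

theorem mem_mkPr {l : ℕ} {a b : ZMod (2 * l + 1)} {h : a ≠ b} {z : ZMod (2 * l + 1)} :
    tf z ∈ (mkPr a b h).1 ↔ z = a ∨ z = b := by
  show tf z ∈ ({tf a, tf b} : Finset (Fin (2 * l + 1))) ↔ _
  rw [Finset.mem_insert, Finset.mem_singleton, tf_inj, tf_inj]

theorem mkPr_eq {l : ℕ} {a b c d : ZMod (2 * l + 1)} {h : a ≠ b} {h' : c ≠ d}
    (e : mkPr a b h = mkPr c d h') : (a = c ∧ b = d) ∨ (a = d ∧ b = c) := by
  have ha : a = c ∨ a = d := mem_mkPr.1 (e ▸ mem_mkPr.2 (Or.inl rfl) : tf a ∈ (mkPr c d h').1)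
  have hb : b = c ∨ b = d := mem_mkPr.1 (e ▸ mem_mkPr.2 (Or.inr rfl) : tf b ∈ (mkPr c d h').1)
  rcases ha with ha | ha <;> rcases hb with hb | hb
  · exact absurd (ha.trans hb.symm) h
  · exact Or.inl ⟨ha, hb⟩
  · exact Or.inr ⟨ha, hb⟩
  · exact absurd (ha.trans hb.symm) h

theorem mkPr_swap {l : ℕ} {a b : ZMod (2 * l + 1)} (h : a ≠ b) (h' : b ≠ a) :
    mkPr a b h = mkPr b a h' := by
  apply Subtype.ext
  exact Finset.pair_comm _ _

theorem mkPr_congr {l : ℕ} {a b c d : ZMod (2 * l + 1)} (h : a ≠ b) (h' : c ≠ d)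
    (e : (a = c ∧ b = d) ∨ (a = d ∧ b = c)) : mkPr a b h = mkPr c d h' := by
  rcases e with ⟨rfl, rfl⟩ | ⟨rfl, rfl⟩
  · rfl
  · exact mkPr_swap _ _

theorem exists_mkPr {l : ℕ} (t : Pr (2 * l + 1)) :
    ∃ (a b : ZMod (2 * l + 1)) (h : a ≠ b), t = mkPr a b h := by
  obtain ⟨a, b, hab, ht⟩ := Finset.card_eq_two.1 t.2
  exact ⟨a, b, hab, Subtype.ext ht⟩

theorem adj_mkPr {l : ℕ} {a b c : ZMod (2 * l + 1)} (hab : a ≠ b) (hac : a ≠ c) (hbc : b ≠ c) :
    (flipGraph (2 * l + 1)).Adj (mkPr a b hab) (mkPr a c hac) := by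
  have e1 : (mkPr a b hab).1 \ (mkPr a c hac).1 = {tf b} := by
    ext z
    rw [Finset.mem_sdiff, Finset.mem_singleton]
    have h1 : z ∈ (mkPr a b hab).1 ↔ z = a ∨ z = b := mem_mkPr
    have h2 : z ∈ (mkPr a c hac).1 ↔ z = a ∨ z = c := mem_mkPr
    rw [h1, h2]
    constructor
    · rintro ⟨h | h, h'⟩
      · exact absurd (Or.inl h) h'
      · exact h
    · intro h
      have h3 : z = b := h
      refine ⟨Or.inr h3, ?_⟩
      rintro (h' | h')
      · exact hab (h'.symm.trans h3)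
      · exact hbc (h3.symm.trans h')
  have e2 : (mkPr a c hac).1 \ (mkPr a b hab).1 = {tf c} := by
    ext z
    rw [Finset.mem_sdiff, Finset.mem_singleton]
    have h1 : z ∈ (mkPr a b hab).1 ↔ z = a ∨ z = b := mem_mkPr
    have h2 : z ∈ (mkPr a c hac).1 ↔ z = a ∨ z = c := mem_mkPr
    rw [h1, h2]
    constructor
    · rintro ⟨h | h, h'⟩
      · exact absurd (Or.inl h) h'
      · exact h
    · intro h
      have h3 : z = c := h
      refine ⟨Or.inr h3, ?_⟩
      rintro (h' | h')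
      · exact hac (h'.symm.trans h3)
      · exact hbc (h'.symm.trans h3)
  constructor
  · show ((mkPr a b hab).1 \ (mkPr a c hac).1).card = 1
    rw [e1]
    exact Finset.card_singleton _
  · show ((mkPr a c hac).1 \ (mkPr a b hab).1).card = 1
    rw [e2]
    exact Finset.card_singleton _

theorem colour_mkPr {l : ℕ} {a b c : ZMod (2 * l + 1)} (hab : a ≠ b) (hac : a ≠ c)
    (hbc : b ≠ c) :
    colour (2 * l + 1) s(mkPr a b hab, mkPr a c hac) = (mkPr b c hbc).1 := by
  show symmDiff (mkPr a b hab).1 (mkPr a c hac).1 = (mkPr b c hbc).1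
  ext z
  rw [Finset.mem_symmDiff]
  have h1 : z ∈ (mkPr a b hab).1 ↔ z = a ∨ z = b := mem_mkPr
  have h2 : z ∈ (mkPr a c hac).1 ↔ z = a ∨ z = c := mem_mkPr
  have h3 : z ∈ (mkPr b c hbc).1 ↔ z = b ∨ z = c := mem_mkPr
  rw [h1, h2, h3]
  constructor
  · rintro (⟨h | h, h'⟩ | ⟨h | h, h'⟩)
    · exact absurd (Or.inl h) h'
    · exact Or.inl h
    · exact absurd (Or.inl h) h'
    · exact Or.inr h
  · rintro (h | h)
    · refine Or.inl ⟨Or.inr h, ?_⟩
      rintro (h' | h')
      · exact hab (h'.symm.trans h)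
      · exact hbc (h.symm.trans h')
    · refine Or.inr ⟨Or.inr h, ?_⟩
      rintro (h' | h')
      · exact hac (h'.symm.trans h)
      · exact hbc (h'.symm.trans h)

/-- Cyclic data. -/
structure RData (l : ℕ) where
  x : ℕ → ZMod (2 * l + 1)
  y : ℕ → ZMod (2 * l + 1)
  perx : ∀ i, x (i + l) = x i
  pery : ∀ i, y (i + l) = y i
  hx : ∀ z : ZMod (2 * l + 1), z ≠ 0 → ∃ k < l, z = x k ∨ z = -x k
  hd : ∀ z : ZMod (2 * l + 1), z ≠ 0 → ∃ k < l, z = y k - x k ∨ z = -(y k - x k)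
  hxy : ∀ i, x (i + 1) = y i ∨ x (i + 1) = -y i
  hD : IsUnit (∑ k ∈ Finset.range l, (y k - x k))

/-- If every nonzero element is `± p k` for some `k < l` then the `p k` are nonzero. -/
theorem ne_zero_of_cover {l : ℕ} (p : ℕ → ZMod (2 * l + 1))
    (h : ∀ z : ZMod (2 * l + 1), z ≠ 0 → ∃ k < l, z = p k ∨ z = -p k) :
    ∀ k < l, p k ≠ 0 := by
  let F : Option (Fin l × Bool) → ZMod (2 * l + 1) := fun o =>
    match o with
    | none => 0
    | some (k, b) => if b then p k else -p k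
  have hs : Function.Surjective F := by
    intro z
    by_cases hz : z = 0
    · exact ⟨none, hz.symm⟩
    · obtain ⟨k, hk, h1 | h1⟩ := h z hz
      · exact ⟨some (⟨k, hk⟩, true), h1.symm⟩
      · exact ⟨some (⟨k, hk⟩, false), h1.symm⟩
  have hc : Fintype.card (Option (Fin l × Bool)) = Fintype.card (ZMod (2 * l + 1)) := by
    rw [Fintype.card_option, Fintype.card_prod, Fintype.card_fin, Fintype.card_bool,
      ZMod.card]
    ring
  have hb := (Fintype.bijective_iff_surjective_and_card F).2 ⟨hs, hc⟩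
  have hinj : ∀ u v, F u = F v → u = v := fun u v h => hb.1 h
  intro k hk h0
  have h1 : F (some ((⟨k, hk⟩ : Fin l), true)) = F none := h0
  have h2 := hinj (some ((⟨k, hk⟩ : Fin l), true)) none h1
  exact Option.some_ne_none _ h2

theorem per_mod {l : ℕ} {p : ℕ → ZMod (2 * l + 1)} (hp : ∀ i, p (i + l) = p i) (i m : ℕ) :
    p (i + m * l) = p i := by
  induction m with
  | zero => simp
  | succ m ih =>
    have : i + (m + 1) * l = (i + m * l) + l := by ring
    rw [this, hp, ih]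

theorem card_Pr (l : ℕ) : Fintype.card (Pr (2 * l + 1)) = l * (2 * l + 1) := by
  have := Fintype.card_finset_len (α := Fin (2 * l + 1)) (k := 2)
  rw [Fintype.card_fin] at this
  rw [show Fintype.card (Pr (2 * l + 1)) = (2 * l + 1).choose 2 from this,
    Nat.choose_two_right]
  have : (2 * l + 1) * (2 * l + 1 - 1) = (l * (2 * l + 1)) * 2 := by
    rw [Nat.add_sub_cancel]
    ring
  rw [this, Nat.mul_div_cancel _ (by norm_num)]

theorem inj_of_surj {l : ℕ} (f : ℕ → Pr (2 * l + 1))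
    (hs : ∀ t, ∃ i < l * (2 * l + 1), f i = t) :
    ∀ i < l * (2 * l + 1), ∀ j < l * (2 * l + 1), f i = f j → i = j := by
  let F : Fin (l * (2 * l + 1)) → Pr (2 * l + 1) := fun i => f i
  have hF : Function.Surjective F := by
    intro t
    obtain ⟨i, hi, h⟩ := hs t
    exact ⟨⟨i, hi⟩, h⟩
  have hb := (Fintype.bijective_iff_surjective_and_card F).2
    ⟨hF, by rw [Fintype.card_fin, card_Pr]⟩
  intro i hi j hj h
  have : F ⟨i, hi⟩ = F ⟨j, hj⟩ := h
  have := hb.1 this
  exact congrArg Fin.val this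

/-- The general covering statement. -/
theorem cover {l : ℕ} (p q S : ℕ → ZMod (2 * l + 1)) (T : ZMod (2 * l + 1)) (hT : IsUnit T)
    (hp : ∀ i, p (i + l) = p i) (hq : ∀ i, q (i + l) = q i)
    (hS : ∀ i m : ℕ, S (i + m * l) = S i + m * T)
    (hd : ∀ z : ZMod (2 * l + 1), z ≠ 0 → ∃ k < l, z = q k - p k ∨ z = -(q k - p k))
    (a b : ZMod (2 * l + 1)) (hab : a ≠ b) :
    ∃ i < l * (2 * l + 1), (S i + p i = a ∧ S i + q i = b) ∨ (S i + p i = b ∧ S i + q i = a) := by
  have key : ∀ k < l, ∀ c : ZMod (2 * l + 1), ∃ i < l * (2 * l + 1),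
      S i = c ∧ p i = p k ∧ q i = q k := by
    intro k hk c
    obtain ⟨T', hT'⟩ := hT.exists_left_inv
    have hv : (((c - S k) * T').val : ZMod (2 * l + 1)) = (c - S k) * T' :=
      ZMod.natCast_zmod_val _
    have hlt : ((c - S k) * T').val < 2 * l + 1 := ZMod.val_lt _
    refine ⟨k + ((c - S k) * T').val * l, ?_, ?_, per_mod hp _ _, per_mod hq _ _⟩
    · have : ((c - S k) * T').val * l ≤ (2 * l) * l := Nat.mul_le_mul_right _ (by omega)
      have e : l * (2 * l + 1) = (2 * l) * l + l := by ring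
      omega
    · rw [hS, hv, mul_assoc, hT', mul_one]
      ring
  obtain ⟨k, hk, h | h⟩ := hd (a - b) (sub_ne_zero.2 hab)
  · obtain ⟨i, hi, h1, h2, h3⟩ := key k hk (b - p k)
    refine ⟨i, hi, Or.inr ⟨?_, ?_⟩⟩
    · rw [h1, h2]; ring
    · rw [h1, h3]; linear_combination -h
  · obtain ⟨i, hi, h1, h2, h3⟩ := key k hk (a - p k)
    refine ⟨i, hi, Or.inl ⟨?_, ?_⟩⟩
    · rw [h1, h2]; ring
    · rw [h1, h3]; linear_combination h

/-- The edge `e` has the token `{a, b}`. -/
def IsTok {l : ℕ} (e : Sym2 (Pr (2 * l + 1))) (a b : ZMod (2 * l + 1)) : Prop :=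
  ∃ (c : ZMod (2 * l + 1)) (ha : c ≠ c + a) (hb : c ≠ c + b),
    e = s(mkPr c (c + a) ha, mkPr c (c + b) hb)

theorem tok_unique {l : ℕ} {e : Sym2 (Pr (2 * l + 1))} {a b a' b' : ZMod (2 * l + 1)}
    (hab : a ≠ b) (h : IsTok e a b) (h' : IsTok e a' b') :
    (a = a' ∧ b = b') ∨ (a = b' ∧ b = a') := by
  obtain ⟨c, ha, hb, rfl⟩ := h
  obtain ⟨c', ha', hb', he⟩ := h'
  -- the centre is the common element
  have hc : ∀ z : ZMod (2 * l + 1), (z = c ∨ z = c + a) → (z = c ∨ z = c + b) → z = c := by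
    intro z h1 h2
    rcases h1 with h1 | h1
    · exact h1
    · rcases h2 with h2 | h2
      · exact h2
      · exact absurd (add_left_cancel (h1.symm.trans h2)) hab
  rw [Sym2.eq_iff] at he
  rcases he with ⟨h1, h2⟩ | ⟨h1, h2⟩
  · have m1 : c' = c ∨ c' = c + a := mem_mkPr.1
      (h1 ▸ mem_mkPr.2 (Or.inl rfl) : tf c' ∈ (mkPr c (c + a) ha).1)
    have m2 : c' = c ∨ c' = c + b := mem_mkPr.1
      (h2 ▸ mem_mkPr.2 (Or.inl rfl) : tf c' ∈ (mkPr c (c + b) hb).1)
    have hcc := hc c' m1 m2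
    subst hcc
    left
    constructor
    · rcases mkPr_eq h1 with ⟨_, h⟩ | ⟨h, _⟩
      · exact add_left_cancel h
      · exact absurd h ha'
    · rcases mkPr_eq h2 with ⟨_, h⟩ | ⟨h, _⟩
      · exact add_left_cancel h
      · exact absurd h hb'
  · have m1 : c' = c ∨ c' = c + a := mem_mkPr.1
      (h1 ▸ mem_mkPr.2 (Or.inl rfl) : tf c' ∈ (mkPr c (c + a) ha).1)
    have m2 : c' = c ∨ c' = c + b := mem_mkPr.1
      (h2 ▸ mem_mkPr.2 (Or.inl rfl) : tf c' ∈ (mkPr c (c + b) hb).1)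
    have hcc := hc c' m1 m2
    subst hcc
    right
    constructor
    · rcases mkPr_eq h1 with ⟨_, h⟩ | ⟨h, _⟩
      · exact add_left_cancel h
      · exact absurd h hb'
    · rcases mkPr_eq h2 with ⟨_, h⟩ | ⟨h, _⟩
      · exact add_left_cancel h
      · exact absurd h ha'

namespace RData

variable {l : ℕ} (D : RData l)

open Classical in
/-- The shift of the centre at step `i`. -/
noncomputable def tau (i : ℕ) : ZMod (2 * l + 1) := if D.x (i + 1) = D.y i then 0 else D.y i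

/-- The centre at time `i`. -/
noncomputable def S (i : ℕ) : ZMod (2 * l + 1) := ∑ j ∈ Finset.range i, D.tau j

theorem S_succ (i : ℕ) : D.S (i + 1) = D.S i + D.tau i := Finset.sum_range_succ _ _

theorem tau_per (i : ℕ) : D.tau (i + l) = D.tau i := by
  unfold tau
  have e : i + l + 1 = (i + 1) + l := by ring
  rw [e, D.perx, D.pery]

theorem S_add (i : ℕ) : D.S (i + l) = D.S i + D.S l := by
  induction i with
  | zero =>
    have : D.S 0 = 0 := Finset.sum_range_zero _
    rw [this, zero_add, zero_add]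
  | succ i ih =>
    have e : i + 1 + l = (i + l) + 1 := by ring
    rw [e, S_succ, ih, tau_per, S_succ]
    ring

theorem S_add_mul (i m : ℕ) : D.S (i + m * l) = D.S i + m * D.S l := by
  induction m with
  | zero => simp
  | succ m ih =>
    have e : i + (m + 1) * l = (i + m * l) + l := by ring
    rw [e, S_add, ih]
    push_cast
    ring

theorem two_tau (i : ℕ) : 2 * D.tau i = D.y i - D.x (i + 1) := by
  unfold tau
  split_ifs with h
  · rw [h]; ring
  · rcases D.hxy i with h1 | h1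
    · exact absurd h1 h
    · rw [h1]; ring

theorem two_S : 2 * D.S l = ∑ k ∈ Finset.range l, (D.y k - D.x k) := by
  have h1 : 2 * D.S l = ∑ k ∈ Finset.range l, (D.y k - D.x (k + 1)) := by
    unfold S
    rw [Finset.mul_sum]
    exact Finset.sum_congr rfl fun k _ => D.two_tau k
  rw [h1, Finset.sum_sub_distrib, Finset.sum_sub_distrib]
  have h2 : ∑ k ∈ Finset.range l, D.x (k + 1) = ∑ k ∈ Finset.range l, D.x k := by
    have h3 := Finset.sum_range_succ' D.x l
    have h4 := Finset.sum_range_succ D.x l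
    have h5 : D.x l = D.x 0 := by
      have := D.perx 0
      rwa [zero_add] at this
    rw [h4, h5] at h3
    exact (add_right_cancel h3).symm
  rw [h2]

theorem S_unit : IsUnit (D.S l) := by
  have h := D.hD
  rw [← two_S] at h
  exact (IsUnit.mul_iff.1 h).2

theorem x_ne (hl : 0 < l) (i : ℕ) : D.x i ≠ 0 := by
  have h := ne_zero_of_cover D.x D.hx (i % l) (Nat.mod_lt _ hl)
  have e := per_mod D.perx (i % l) (i / l)
  rw [mul_comm (i / l) l, Nat.mod_add_div] at e
  rwa [e]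

theorem d_ne (hl : 0 < l) (i : ℕ) : D.y i - D.x i ≠ 0 := by
  have h := ne_zero_of_cover (fun k => D.y k - D.x k) D.hd (i % l) (Nat.mod_lt _ hl)
  have e := per_mod D.perx (i % l) (i / l)
  have e' := per_mod D.pery (i % l) (i / l)
  rw [mul_comm (i / l) l, Nat.mod_add_div] at e e'
  rwa [e, e']

theorem y_ne (hl : 0 < l) (i : ℕ) : D.y i ≠ 0 := by
  intro h
  rcases D.hxy i with h1 | h1
  · exact D.x_ne hl (i + 1) (h1.trans h)
  · exact D.x_ne hl (i + 1) (by rw [h1, h, neg_zero])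

theorem x_ne_y (hl : 0 < l) (i : ℕ) : D.x i ≠ D.y i := fun h => D.d_ne hl i (by rw [h, sub_self])

theorem hc {a c : ZMod (2 * l + 1)} (h : a ≠ 0) : c ≠ c + a := fun e => h (by
  have : c + 0 = c + a := by rw [add_zero]; exact e
  exact (add_left_cancel this).symm)

/-- The vertex at time `i`. -/
noncomputable def f (hl : 0 < l) (i : ℕ) : Pr (2 * l + 1) :=
  mkPr (D.S i) (D.S i + D.x i) (hc (D.x_ne hl i))

/-- The colour at time `i`. -/
noncomputable def g (hl : 0 < l) (i : ℕ) : Pr (2 * l + 1) :=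
  mkPr (D.S i + D.x i) (D.S i + D.y i) (fun e => D.x_ne_y hl i (add_left_cancel e))

theorem f_succ (hl : 0 < l) (i : ℕ) :
    D.f hl (i + 1) = mkPr (D.S i) (D.S i + D.y i) (hc (D.y_ne hl i)) := by
  apply mkPr_congr
  rw [S_succ]
  unfold tau
  split_ifs with h
  · left
    rw [h, add_zero]
    exact ⟨rfl, rfl⟩
  · right
    rcases D.hxy i with h1 | h1
    · exact absurd h1 h
    · rw [h1]
      exact ⟨rfl, by ring⟩

/-- Cyclic data give a rainbow cycle whose edges are those with the tokens of the data. -/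
theorem exists_cycle_iff (hl : 0 < l) :
    ∃ (v : Pr (2 * l + 1)) (w : (flipGraph (2 * l + 1)).Walk v v), IsRainbowCycle w ∧
      ∀ e, e ∈ w.edges ↔ ∃ k < l, IsTok e (D.x k) (D.y k) := by
  have hfs : ∀ t, ∃ i < l * (2 * l + 1), D.f hl i = t := by
    intro t
    obtain ⟨a, b, hab, rfl⟩ := exists_mkPr t
    obtain ⟨i, hi, h⟩ := cover (fun _ => 0) D.x D.S (D.S l) D.S_unit (fun _ => rfl) D.perx
      D.S_add_mul (by
        intro z hz
        obtain ⟨k, hk, h⟩ := D.hx z hz
        refine ⟨k, hk, ?_⟩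
        rw [sub_zero]
        exact h) a b hab
    refine ⟨i, hi, mkPr_congr _ _ ?_⟩
    rw [add_zero] at h
    exact h
  have hgs : ∀ t, ∃ i < l * (2 * l + 1), D.g hl i = t := by
    intro t
    obtain ⟨a, b, hab, rfl⟩ := exists_mkPr t
    obtain ⟨i, hi, h⟩ := cover D.x D.y D.S (D.S l) D.S_unit D.perx D.pery
      D.S_add_mul D.hd a b hab
    exact ⟨i, hi, mkPr_congr _ _ h⟩
  have hperf : D.f hl (l * (2 * l + 1)) = D.f hl 0 := by
    apply mkPr_congr
    left
    have e : l * (2 * l + 1) = 0 + (2 * l + 1) * l := by ring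
    have h1 : D.S (l * (2 * l + 1)) = D.S 0 := by
      rw [e, S_add_mul]
      have : ((2 * l + 1 : ℕ) : ZMod (2 * l + 1)) = 0 := ZMod.natCast_self _
      rw [this, zero_mul, add_zero]
    have h2 : D.x (l * (2 * l + 1)) = D.x 0 := by
      rw [e, per_mod D.perx]
    exact ⟨h1, by rw [h1, h2]⟩
  obtain ⟨w, hw, he⟩ := rainbow_of_seq (n := 2 * l + 1) (N := l * (2 * l + 1)) (D.f hl) (D.g hl)
    (by
      intro i
      rw [f_succ]
      exact adj_mkPr _ _ (fun e => D.x_ne_y hl i (add_left_cancel e)))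
    (by
      intro i
      rw [f_succ]
      exact colour_mkPr _ _ _)
    (Nat.mul_pos hl (by omega)) hperf (inj_of_surj _ hfs) (inj_of_surj _ hgs) hgs
  refine ⟨_, w, hw, ?_⟩
  intro e
  rw [he]
  constructor
  · rintro ⟨i, hi, rfl⟩
    refine ⟨i % l, Nat.mod_lt _ hl, D.S i, ?_⟩
    have e1 := per_mod D.perx (i % l) (i / l)
    have e2 := per_mod D.pery (i % l) (i / l)
    rw [mul_comm (i / l) l, Nat.mod_add_div] at e1 e2
    rw [← e1, ← e2]
    exact ⟨hc (D.x_ne hl i), hc (D.y_ne hl i), by rw [f_succ]; rfl⟩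
  · rintro ⟨k, hk, c, ha, hb, rfl⟩
    obtain ⟨T', hT'⟩ := D.S_unit.exists_left_inv
    have hv : (((c - D.S k) * T').val : ZMod (2 * l + 1)) = (c - D.S k) * T' :=
      ZMod.natCast_zmod_val _
    have hlt : ((c - D.S k) * T').val < 2 * l + 1 := ZMod.val_lt _
    have hSc : D.S (k + ((c - D.S k) * T').val * l) = c := by
      rw [S_add_mul, hv, mul_assoc, hT', mul_one]
      ring
    refine ⟨k + ((c - D.S k) * T').val * l, ?_, ?_⟩
    · have : ((c - D.S k) * T').val * l ≤ (2 * l) * l := Nat.mul_le_mul_right _ (by omega)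
      have e : l * (2 * l + 1) = (2 * l) * l + l := by ring
      omega
    · rw [f_succ]
      have e1 := per_mod D.perx k ((c - D.S k) * T').val
      have e2 := per_mod D.pery k ((c - D.S k) * T').val
      have f1 : D.f hl (k + ((c - D.S k) * T').val * l) = mkPr c (c + D.x k) ha := by
        apply mkPr_congr
        left
        rw [hSc, e1]
        exact ⟨rfl, rfl⟩
      have f2 : mkPr (D.S (k + ((c - D.S k) * T').val * l))
          (D.S (k + ((c - D.S k) * T').val * l) + D.y (k + ((c - D.S k) * T').val * l))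
          (hc (D.y_ne hl _)) = mkPr c (c + D.y k) hb := by
        apply mkPr_congr
        left
        rw [hSc, e2]
        exact ⟨rfl, rfl⟩
      rw [f1, f2]

/-- Cyclic data give a rainbow cycle whose edges have the tokens of the data. -/
theorem exists_cycle (hl : 0 < l) :
    ∃ (v : Pr (2 * l + 1)) (w : (flipGraph (2 * l + 1)).Walk v v), IsRainbowCycle w ∧
      ∀ e ∈ w.edges, ∃ k < l, IsTok e (D.x k) (D.y k) := by
  obtain ⟨v, w, hw, he⟩ := D.exists_cycle_iff hl
  exact ⟨v, w, hw, fun e hew => (he e).1 hew⟩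

end RData

/-- A family of cyclic data without common tokens gives pairwise edge-disjoint rainbow cycles. -/
theorem many {l K : ℕ} (hl : 0 < l) (D : Fin K → RData l)
    (hdis : ∀ i j, i ≠ j → ∀ k < l, ∀ m < l,
      ¬ (((D i).x k = (D j).x m ∧ (D i).y k = (D j).y m) ∨
        ((D i).x k = (D j).y m ∧ (D i).y k = (D j).x m))) :
    HasDisjointRainbow (2 * l + 1) K := by
  choose v w hw he using fun i => (D i).exists_cycle hl
  refine ⟨v, w, hw, ?_⟩
  intro i j hij e hei hej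
  obtain ⟨k, hk, h1⟩ := he i e hei
  obtain ⟨m, hm, h2⟩ := he j e hej
  exact hdis i j hij k hk m hm (tok_unique ((D i).x_ne_y hl k) h1 h2)

end Pool.Agent.FR
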