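import Pool.Agent.Hhelper34.FR.Base

/-! Cyclic data from a unit and a choice of signs. -/

namespace Pool.Agent.FR

open Finset

variable {l : ℕ}

theorem pm_aux {R : Type*} [CommRing R] {z u r m y e : R} (hz : z = u * r)
    (hr : r = m ∨ r = -m) (hy : y = m ∨ y = -m) (he : e = 1 ∨ e = -1) :
    z = e * (u * y) ∨ z = -(e * (u * y)) := by
  rcases hr with hr | hr <;> rcases hy with hy | hy <;> rcases he with he | he <;>
    rw [hz, hr, hy, he] <;> first | (left; ring1) | (right; ring1)

theorem coverD {i : ℕ} (hi : 0 < i) (hil : i < l) (hpar : l = 2 * i ∨ l + 1 = 2 * i)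
    (r : ZMod (2 * l + 1)) (hr : r ≠ 0) :
    ∃ k < l, r = ((yb l i (k + 1) - yb l i k : ℤ) : ZMod (2 * l + 1)) ∨
      r = -((yb l i (k + 1) - yb l i k : ℤ) : ZMod (2 * l + 1)) := by
  obtain ⟨k, hk, h⟩ := coverB r hr
  rcases Nat.eq_zero_or_pos k with h0 | h0
  · subst h0
    obtain ⟨e1, e2⟩ := yb_spec (l := l) hil hi
    refine ⟨i - 1, by omega, ?_⟩
    rw [Nat.sub_add_cancel hi, e1, e2]
    rcases sgn i with hs | hs <;> rw [hs] <;> push_cast <;> push_cast at h
    · rcases h with h | h
      · left; linear_combination h
      · right; linear_combination h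
    · rcases h with h | h
      · right; linear_combination h
      · left; linear_combination h
  · obtain ⟨j, rfl⟩ : ∃ j, k = j + 1 := ⟨k - 1, by omega⟩
    by_cases hji : j + 1 = i
    · refine ⟨l - 1, by omega, ?_⟩
      have hl1 : l - 1 + 1 = l := by omega
      rw [hl1, yb_last (by omega), yb_pred hil]
      have h2 := two_l (l := l)
      rcases hpar with hp | hp
      · have hodd : (-1 : ℤ) ^ (l - 1) = -1 := by
          rw [Odd.neg_one_pow ⟨i - 1, by omega⟩]
        rw [hodd]
        have h3 : ((2 * (j + 1) + 1 : ℕ) : ZMod (2 * l + 1)) = (l : ZMod (2 * l + 1)) + 1 := by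
          rw [hji, ← hp]
          push_cast
          ring
        rw [h3] at h
        push_cast
        rcases h with h | h
        · left; linear_combination h
        · right; linear_combination h
      · have heven : (-1 : ℤ) ^ (l - 1) = 1 := by
          rw [Even.neg_one_pow ⟨i - 1, by omega⟩]
        rw [heven]
        have h3 : ((2 * (j + 1) + 1 : ℕ) : ZMod (2 * l + 1)) = (l : ZMod (2 * l + 1)) + 2 := by
          rw [hji, ← hp]
          push_cast
          ring
        rw [h3] at h
        push_cast
        rcases h with h | h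
        · left; linear_combination h + h2
        · right; linear_combination h - h2
    · obtain ⟨s, hs, _, hd⟩ := yb_ord (l := l) (i := i) (k := j) hk hji
      refine ⟨j, by omega, ?_⟩
      rw [hd]
      rcases hs with hs | hs <;> rw [hs] <;> push_cast <;> push_cast at h
      · rcases h with h | h
        · left; linear_combination h
        · right; linear_combination h
      · rcases h with h | h
        · right; linear_combination h
        · left; linear_combination h

/-- Cyclic data from a unit `u` and signs `e`. -/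
noncomputable def mkData (i : ℕ) (hi : 0 < i) (hil : i < l) (hpar : l = 2 * i ∨ l + 1 = 2 * i)
    (u : ZMod (2 * l + 1)) (hu : IsUnit u) (e : ℕ → ZMod (2 * l + 1))
    (he : ∀ k, e k = 1 ∨ e k = -1)
    (hT : IsUnit (∑ k ∈ Finset.range l,
      e k * ((yb l i (k + 1) - yb l i k : ℤ) : ZMod (2 * l + 1)))) : RData l where
  x k := e (k % l) * (u * (yb l i (k % l) : ℤ))
  y k := e (k % l) * (u * (yb l i (k % l + 1) : ℤ))
  perx k := by rw [Nat.add_mod_right]
  pery k := by rw [Nat.add_mod_right]
  hx z hz := by
    obtain ⟨v, hv⟩ := hu.exists_right_inv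
    have hz' : z = u * (v * z) := by rw [← mul_assoc, hv, one_mul]
    have hr : v * z ≠ 0 := by
      intro h
      rw [h, mul_zero] at hz'
      exact hz hz'
    obtain ⟨k, hk, h⟩ := coverA (v * z) hr
    refine ⟨k, hk, ?_⟩
    rw [Nat.mod_eq_of_lt hk]
    refine pm_aux hz' h ?_ (he k)
    rcases yb_class (l := l) (i := i) hk with h1 | h1
    · left; rw [h1]; push_cast; ring
    · right; rw [h1]; push_cast; ring
  hd z hz := by
    obtain ⟨v, hv⟩ := hu.exists_right_inv
    have hz' : z = u * (v * z) := by rw [← mul_assoc, hv, one_mul]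
    have hr : v * z ≠ 0 := by
      intro h
      rw [h, mul_zero] at hz'
      exact hz hz'
    obtain ⟨k, hk, h⟩ := coverD hi hil hpar (v * z) hr
    refine ⟨k, hk, ?_⟩
    rw [Nat.mod_eq_of_lt hk]
    have h2 := pm_aux hz' h (Or.inl rfl) (he k)
    push_cast at h2
    rcases h2 with h2 | h2
    · left; linear_combination h2
    · right; linear_combination h2
  hxy k := by
    have hlt : k % l < l := Nat.mod_lt _ (by omega)
    rcases Nat.lt_or_ge (k % l + 1) l with h | h
    · have e1 : (k + 1) % l = k % l + 1 := by
        rw [Nat.add_mod, Nat.mod_eq_of_lt (show 1 < l by omega), Nat.mod_eq_of_lt h]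
      rw [e1]
      rcases he (k % l) with h1 | h1 <;> rcases he (k % l + 1) with h2 | h2 <;>
        rw [h1, h2] <;> first | (left; ring1) | (right; ring1)
    · have e0 : k % l + 1 = l := by omega
      have e1 : (k + 1) % l = 0 := by
        rw [Nat.add_mod, Nat.mod_eq_of_lt (show 1 < l by omega), e0, Nat.mod_self]
      rw [e1, e0, yb_last (by omega), yb_zero hi]
      push_cast
      rcases he (k % l) with h1 | h1 <;> rcases he 0 with h2 | h2 <;>
        rw [h1, h2] <;> first | (left; ring1) | (right; ring1)
  hD := by
    have h1 : ∑ k ∈ Finset.range l, (e (k % l) * (u * (yb l i (k % l + 1) : ℤ))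
        - e (k % l) * (u * (yb l i (k % l) : ℤ)))
        = u * ∑ k ∈ Finset.range l,
          e k * ((yb l i (k + 1) - yb l i k : ℤ) : ZMod (2 * l + 1)) := by
      rw [Finset.mul_sum]
      refine Finset.sum_congr rfl fun k hk => ?_
      rw [Nat.mod_eq_of_lt (Finset.mem_range.1 hk)]
      push_cast
      ring
    rw [h1]
    exact hu.mul hT

end Pool.Agent.FR
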