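import Pool.Agent.Hhelper34.FR.Main

/-! Cyclic data from geometric progressions. -/

namespace Pool.Agent.FR

open Finset Pool.Agent.FB

variable {l : ℕ}

/-- The representative of `± z` between `0` and `l`. -/
def ab (z : ZMod (2 * l + 1)) : ℕ := z.valMinAbs.natAbs

theorem ab_cast (z : ZMod (2 * l + 1)) :
    (ab z : ZMod (2 * l + 1)) = z ∨ (ab z : ZMod (2 * l + 1)) = -z := by
  unfold ab
  rw [ZMod.natCast_natAbs_valMinAbs]
  split_ifs
  · exact Or.inl rfl
  · exact Or.inr rfl

theorem ab_le (z : ZMod (2 * l + 1)) : ab z ≤ l := by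
  have := ZMod.natAbs_valMinAbs_le z
  unfold ab
  omega

theorem ab_pos {z : ZMod (2 * l + 1)} (hz : z ≠ 0) : 1 ≤ ab z := by
  rcases Nat.eq_zero_or_pos (ab z) with h | h
  · exfalso
    rcases ab_cast z with h1 | h1 <;> rw [h, Nat.cast_zero] at h1
    · exact hz h1.symm
    · exact hz (neg_eq_zero.1 h1.symm)
  · exact h

theorem ab_neg (z : ZMod (2 * l + 1)) : ab (-z) = ab z := by
  unfold ab
  exact ZMod.natAbs_valMinAbs_neg z

/-- Small numbers in the same class are equal. -/
theorem small_inj {s t : ℕ} (hs1 : 1 ≤ s) (hs : s ≤ l) (ht : t ≤ l)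
    (h : (s : ZMod (2 * l + 1)) = t ∨ (s : ZMod (2 * l + 1)) = -t) : s = t := by
  rcases h with h | h
  · rw [ZMod.natCast_eq_natCast_iff', Nat.mod_eq_of_lt (by omega), Nat.mod_eq_of_lt (by omega)]
      at h
    exact h
  · exfalso
    have h4 : ((s + t : ℕ) : ZMod (2 * l + 1)) = 0 := by
      rw [Nat.cast_add, h]
      ring
    exact const_ne (by omega) (by omega) h4

theorem small_ne_neg {s t : ℕ} (hs1 : 1 ≤ s) (hs : s ≤ l) (ht : t ≤ l)
    (h : (s : ZMod (2 * l + 1)) = -t) : False := by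
  have h4 : ((s + t : ℕ) : ZMod (2 * l + 1)) = 0 := by
    rw [Nat.cast_add, h]
    ring
  exact const_ne (by omega) (by omega) h4

theorem ab_eq {z : ZMod (2 * l + 1)} {s : ℕ} (hs1 : 1 ≤ s) (hs : s ≤ l)
    (h : (s : ZMod (2 * l + 1)) = z ∨ (s : ZMod (2 * l + 1)) = -z) : ab z = s := by
  refine (small_inj hs1 hs (ab_le z) ?_).symm
  rcases h with h | h <;> rcases ab_cast z with h1 | h1 <;> rw [h, h1]
  · exact Or.inl rfl
  · right; ring
  · exact Or.inr rfl
  · exact Or.inl rfl

theorem ab_congr {z w : ZMod (2 * l + 1)} (h : z = w ∨ z = -w) : ab z = ab w := by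
  rcases h with rfl | rfl
  · rfl
  · exact ab_neg w

/-- The sum `1 + ... + l` is `- 1 / 8`. -/
theorem sum_small : 8 * ∑ s ∈ Finset.Icc 1 l, (s : ZMod (2 * l + 1)) = -1 := by
  have h1 : (∑ s ∈ Finset.Icc 1 l, s) * 2 = l * (l + 1) := by
    have h2 := Finset.sum_range_id_mul_two (l + 1)
    have h3 : ∑ s ∈ Finset.range (l + 1), s = ∑ s ∈ Finset.Icc 1 l, s := by
      have : Finset.range (l + 1) = insert 0 (Finset.Icc 1 l) := by
        ext a
        rw [Finset.mem_range, Finset.mem_insert, Finset.mem_Icc]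
        omega
      rw [this, Finset.sum_insert (by rw [Finset.mem_Icc]; omega)]
      simp
    rw [← h3, h2, Nat.add_sub_cancel, mul_comm]
  have h4 := congrArg (fun n : ℕ => (n : ZMod (2 * l + 1))) h1
  push_cast at h4
  have h5 := two_l (l := l)
  linear_combination 4 * h4 + (2 * (l : ZMod (2 * l + 1)) + 1) * h5

theorem isUnit_sum_small : IsUnit (∑ s ∈ Finset.Icc 1 l, (s : ZMod (2 * l + 1))) := by
  have h : IsUnit (8 * ∑ s ∈ Finset.Icc 1 l, (s : ZMod (2 * l + 1))) := by
    rw [sum_small]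
    exact isUnit_one.neg
  exact (IsUnit.mul_iff.1 h).2

/-- `ρ` generates the nonzero elements up to sign. -/
def Gen (l : ℕ) (r : ZMod (2 * l + 1)) : Prop :=
  ∀ z : ZMod (2 * l + 1), z ≠ 0 → ∃ k < l, z = r ^ k ∨ z = -r ^ k

theorem sum_ab {r : ZMod (2 * l + 1)} (hu : IsUnit r) (hg : Gen l r) :
    ∑ k ∈ Finset.range l, (ab (r ^ k) : ZMod (2 * l + 1))
      = ∑ s ∈ Finset.Icc 1 l, (s : ZMod (2 * l + 1)) := by
  rcases Nat.eq_zero_or_pos l with h0 | h0
  · subst h0
    simp
  have hne : ∀ k, r ^ k ≠ 0 := by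
    intro k h
    have := hu.pow k
    rw [h] at this
    have h1 : (1 : ZMod (2 * l + 1)) = 0 := by
      obtain ⟨v, hv⟩ := this.exists_right_inv
      rw [← hv, zero_mul]
    exact const_ne (l := l) (a := 1) one_pos (by omega) (by rw [Nat.cast_one]; exact h1)
  have him : (Finset.range l).image (fun k => ab (r ^ k)) = Finset.Icc 1 l := by
    ext s
    rw [Finset.mem_image, Finset.mem_Icc]
    constructor
    · rintro ⟨k, _, rfl⟩
      exact ⟨ab_pos (hne k), ab_le _⟩
    · rintro ⟨h1, h2⟩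
      obtain ⟨k, hk, h⟩ := hg (s : ZMod (2 * l + 1)) (const_ne (by omega) (by omega))
      exact ⟨k, Finset.mem_range.2 hk, ab_eq h1 h2 h⟩
  have hinj : Set.InjOn (fun k => ab (r ^ k)) (Finset.range l : Set ℕ) := by
    rw [← Finset.card_image_iff, him, Nat.card_Icc, Finset.card_range, Nat.add_sub_cancel]
  rw [← him, Finset.sum_image hinj]

/-- Cyclic data from a geometric progression. -/
noncomputable def geoData (r e : ZMod (2 * l + 1)) (he : e = 1 ∨ e = -1)
    (hg : Gen l r) (hper : r ^ l = 1 ∨ r ^ l = -1) (hr0 : IsUnit r) (hr1 : IsUnit (r - 1)) :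
    RData l where
  x k := e * (ab (r ^ k) : ZMod (2 * l + 1))
  y k := e * (ab (r ^ k) : ZMod (2 * l + 1)) * r
  perx k := by
    have : ab (r ^ (k + l)) = ab (r ^ k) := by
      apply ab_congr
      rw [pow_add]
      rcases hper with h | h <;> rw [h]
      · left; ring
      · right; ring
    rw [this]
  pery k := by
    have : ab (r ^ (k + l)) = ab (r ^ k) := by
      apply ab_congr
      rw [pow_add]
      rcases hper with h | h <;> rw [h]
      · left; ring
      · right; ring
    rw [this]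
  hx z hz := by
    obtain ⟨k, hk, h⟩ := hg z hz
    refine ⟨k, hk, ?_⟩
    rcases he with h1 | h1 <;> rcases ab_cast (r ^ k) with h2 | h2 <;> rcases h with h3 | h3 <;>
      rw [h1, h2, h3] <;> first | (left; ring1) | (right; ring1)
  hd z hz := by
    obtain ⟨v, hv⟩ := hr1.exists_right_inv
    have hz' : z = (r - 1) * (v * z) := by rw [← mul_assoc, hv, one_mul]
    have hvz : v * z ≠ 0 := by
      intro h
      rw [h, mul_zero] at hz'
      exact hz hz'
    obtain ⟨k, hk, h⟩ := hg (v * z) hvz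
    refine ⟨k, hk, ?_⟩
    rw [hz']
    rcases he with h1 | h1 <;> rcases ab_cast (r ^ k) with h2 | h2 <;> rcases h with h3 | h3 <;>
      rw [h1, h2, h3] <;> first | (left; ring1) | (right; ring1)
  hxy k := by
    rcases he with h1 | h1 <;> rcases ab_cast (r ^ k) with h2 | h2 <;>
      rcases ab_cast (r ^ (k + 1)) with h3 | h3 <;>
      rw [h1, h2, h3] <;> first | (left; ring1) | (right; ring1)
  hD := by
    have h1 : ∑ k ∈ Finset.range l, (e * (ab (r ^ k) : ZMod (2 * l + 1)) * r
        - e * (ab (r ^ k) : ZMod (2 * l + 1)))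
        = e * (r - 1) * ∑ k ∈ Finset.range l, (ab (r ^ k) : ZMod (2 * l + 1)) := by
      rw [Finset.mul_sum]
      refine Finset.sum_congr rfl fun k _ => ?_
      ring
    rw [h1, sum_ab hr0 hg]
    have he' : IsUnit e := by
      rcases he with h | h <;> rw [h]
      · exact isUnit_one
      · exact isUnit_one.neg
    exact (he'.mul hr1).mul isUnit_sum_small

/-- Tokens of the geometric data. -/
theorem geo_tok {r r' e e' : ZMod (2 * l + 1)} (he : e = 1 ∨ e = -1) (he' : e' = 1 ∨ e' = -1)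
    {s s' : ℕ} (hs1 : 1 ≤ s) (hs : s ≤ l) (hs1' : 1 ≤ s') (hs' : s' ≤ l)
    (hus : IsUnit (s : ZMod (2 * l + 1)))
    (ht : TE (e * (s : ZMod (2 * l + 1))) (e * s * r) (e' * s') (e' * s' * r')) :
    (r = r' ∧ e = e') ∨ r * r' = 1 := by
  have heu : IsUnit e := by
    rcases he with h | h <;> rw [h]
    · exact isUnit_one
    · exact isUnit_one.neg
  rcases ht with ⟨h1, h2⟩ | ⟨h1, h2⟩
  · left
    constructor
    · have : (r - r') * (e * s) = 0 := by
        linear_combination h2 - r' * h1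
      exact sub_eq_zero.1 (cancel (heu.mul hus) this)
    · rcases he with h3 | h3 <;> rcases he' with h4 | h4 <;> rw [h3, h4] at h1 ⊢
      · exfalso
        refine small_ne_neg hs1 hs hs' ?_
        linear_combination h1
      · exfalso
        refine small_ne_neg hs1 hs hs' ?_
        linear_combination -h1
  · right
    have : (r * r' - 1) * (e * s) = 0 := by
      linear_combination r' * h2 - h1
    exact sub_eq_zero.1 (cancel (heu.mul hus) this)

/-! ### A primitive root -/

theorem prim_root (hp : (2 * l + 1).Prime) (hl : 0 < l) :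
    ∃ g : ZMod (2 * l + 1), g ≠ 0 ∧ g ^ l = -1 ∧
      (∀ z : ZMod (2 * l + 1), z ≠ 0 → ∃ m : ℕ, z = g ^ m) ∧
      (∀ a b : ℕ, (g ^ a = g ^ b ∨ g ^ a = -g ^ b) → a ≡ b [MOD l]) := by
  haveI := Fact.mk hp
  obtain ⟨u, hu⟩ := IsCyclic.exists_generator (α := (ZMod (2 * l + 1))ˣ)
  have hord : orderOf u = 2 * l := by
    rw [orderOf_eq_card_of_forall_mem_zpowers hu, Nat.card_eq_fintype_card,
      ZMod.card_units_eq_totient, Nat.totient_prime hp, Nat.add_sub_cancel]
  have hinj : ∀ a b : ℕ, ((u : ZMod (2 * l + 1)) ^ a = (u : ZMod (2 * l + 1)) ^ b) →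
      a ≡ b [MOD (2 * l)] := by
    intro a b h
    have h1 : u ^ a = u ^ b := by
      apply Units.ext
      rw [Units.val_pow_eq_pow_val, Units.val_pow_eq_pow_val]
      exact h
    rw [pow_eq_pow_iff_modEq, hord] at h1
    exact h1
  have hgl : (u : ZMod (2 * l + 1)) ^ l = -1 := by
    have h1 : ((u : ZMod (2 * l + 1)) ^ l) * ((u : ZMod (2 * l + 1)) ^ l) = 1 := by
      have h0 : u ^ orderOf u = 1 := pow_orderOf_eq_one u
      rw [hord] at h0
      rw [← pow_add, ← two_mul, ← Units.val_pow_eq_pow_val, h0]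
      rfl
    rcases mul_self_eq_one_iff.1 h1 with h2 | h2
    · exfalso
      have h3 := hinj l 0 (by rw [h2, pow_zero])
      have h4 : 2 * l ∣ l := (Nat.modEq_zero_iff_dvd).1 h3
      have := Nat.le_of_dvd hl h4
      omega
    · exact h2
  refine ⟨(u : ZMod (2 * l + 1)), u.ne_zero, hgl, ?_, ?_⟩
  · intro z hz
    have h1 := hu (Units.mk0 z hz)
    rw [← mem_powers_iff_mem_zpowers] at h1
    obtain ⟨m, hm⟩ := (Submonoid.mem_powers_iff _ _).1 h1
    refine ⟨m, ?_⟩
    have := congrArg (fun v : (ZMod (2 * l + 1))ˣ => (v : ZMod (2 * l + 1))) hm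
    simp only [Units.val_pow_eq_pow_val, Units.val_mk0] at this
    exact this.symm
  · intro a b h
    rcases h with h | h
    · exact (hinj a b h).of_mul_left 2
    · have h1 : (u : ZMod (2 * l + 1)) ^ a = (u : ZMod (2 * l + 1)) ^ (b + l) := by
        rw [pow_add, hgl, h]
        ring
      have h2 := (hinj a (b + l) h1).of_mul_left 2
      exact h2.trans (by
        show (b + l) % l = b % l
        exact Nat.add_mod_right b l)

/-- Powers of the primitive root depend up to sign on the exponent modulo `l`. -/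
theorem pow_mod {g : ZMod (2 * l + 1)} (hgl : g ^ l = -1) (a : ℕ) :
    g ^ a = g ^ (a % l) ∨ g ^ a = -g ^ (a % l) := by
  have h1 : g ^ a = g ^ (a % l) * (-1) ^ (a / l) := by
    conv_lhs => rw [← Nat.mod_add_div a l]
    rw [pow_add, pow_mul, hgl]
  rw [h1]
  rcases neg_one_pow_eq_or (ZMod (2 * l + 1)) (a / l) with h | h <;> rw [h]
  · left; ring
  · right; ring

theorem gen_of {g : ZMod (2 * l + 1)} (hl : 1 < l) (hgl : g ^ l = -1)
    (hg : ∀ z : ZMod (2 * l + 1), z ≠ 0 → ∃ m : ℕ, z = g ^ m) {j : ℕ} (hj : Nat.Coprime j l)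
    {d : ZMod (2 * l + 1)} (hd : d = 1 ∨ d = -1) : Gen l (d * g ^ j) := by
  intro z hz
  obtain ⟨m, hm⟩ := hg z hz
  obtain ⟨j', _, hj'⟩ := Nat.exists_mul_mod_eq_one_of_coprime hj hl
  refine ⟨(m * j') % l, Nat.mod_lt _ (by omega), ?_⟩
  have h1 : (j * ((m * j') % l)) % l = m % l := by
    rw [Nat.mul_mod, Nat.mod_mod, ← Nat.mul_mod]
    have e : j * (m * j') = m * (j * j') := by ring
    rw [e, Nat.mul_mod, hj', mul_one, Nat.mod_mod]
  have h2 := pow_mod hgl (j * ((m * j') % l))
  have h3 := pow_mod hgl m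
  rw [h1] at h2
  rw [mul_pow, ← pow_mul, hm]
  have h4 : d ^ ((m * j') % l) = 1 ∨ d ^ ((m * j') % l) = -1 := by
    rcases hd with h | h <;> rw [h]
    · left; exact one_pow _
    · exact neg_one_pow_eq_or _ _
  rcases h4 with h4 | h4 <;> rcases h2 with h2 | h2 <;> rcases h3 with h3 | h3 <;>
    rw [h4, h2, h3] <;> first | (left; ring1) | (right; ring1)

/-- The index set: exponents. -/
def JJ (l : ℕ) : Finset ℕ := (Finset.range l).filter (fun j => Nat.Coprime j l ∧ 2 * j < l)

theorem mem_JJ {j : ℕ} : j ∈ JJ l ↔ Nat.Coprime j l ∧ 2 * j < l := by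
  unfold JJ
  rw [Finset.mem_filter, Finset.mem_range]
  exact ⟨fun h => h.2, fun h => ⟨by omega, h⟩⟩

theorem card_JJ (hl : 3 ≤ l) : Nat.totient l = 2 * (JJ l).card := by
  have h0 : Nat.totient l = ((Finset.range l).filter (Nat.Coprime l)).card := rfl
  have h1 : ((Finset.range l).filter (Nat.Coprime l)) = JJ l ∪ (JJ l).image (fun j => l - j) := by
    ext a
    rw [Finset.mem_filter, Finset.mem_range, Finset.mem_union, Finset.mem_image, mem_JJ]
    constructor
    · rintro ⟨ha, hc⟩
      rcases Nat.lt_or_ge (2 * a) l with h | h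
      · exact Or.inl ⟨hc.symm, h⟩
      · right
        have h2 : 2 * a ≠ l := by
          intro h2
          have h3 : a ∣ l := ⟨2, by omega⟩
          have h4 : a = 1 := by
            have := Nat.dvd_gcd h3 (dvd_refl a)
            rw [hc] at this
            exact Nat.dvd_one.1 this
          omega
        refine ⟨l - a, mem_JJ.2 ⟨?_, by omega⟩, by omega⟩
        rw [Nat.coprime_comm, Nat.coprime_self_sub_right ha.le]
        exact hc
    · rintro (⟨hc, h⟩ | ⟨j, hj, rfl⟩)
      · exact ⟨by omega, hc.symm⟩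
      · have hj' := mem_JJ.1 hj
        have hj0 : j ≠ 0 := by
          rintro rfl
          have := hj'.1
          rw [Nat.coprime_zero_left] at this
          omega
        refine ⟨by omega, ?_⟩
        show Nat.Coprime l (l - j)
        rw [Nat.coprime_self_sub_right (by omega)]
        exact hj'.1.symm
  have hdis : Disjoint (JJ l) ((JJ l).image (fun j => l - j)) := by
    rw [Finset.disjoint_left]
    intro a ha hb
    rw [Finset.mem_image] at hb
    obtain ⟨j, hj, rfl⟩ := hb
    have h2 := (mem_JJ.1 ha).2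
    have h3 := (mem_JJ.1 hj).2
    omega
  have hinj : Set.InjOn (fun j => l - j) (JJ l : Set ℕ) := by
    intro a ha b hb h
    have h2 := (mem_JJ.1 (Finset.mem_coe.1 ha)).2
    have h3 := (mem_JJ.1 (Finset.mem_coe.1 hb)).2
    simp only at h
    omega
  rw [h0, h1, Finset.card_union_of_disjoint hdis, Finset.card_image_of_injOn hinj]
  ring

end Pool.Agent.FR
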