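import Pool.Agent.Hhelper34.FR.Geo

/-! The family of geometric rainbow cycles modulo a prime. -/

namespace Pool.Agent.FR

open Finset Pool.Agent.FB

variable {l : ℕ}

/-- The edge joins `{x, c}` and `{c, y}` where `c` is the midpoint of `x` and `y` modulo `n`. -/
def IsMid (n : ℕ) (e : Sym2 (Pr n)) : Prop :=
  ∃ (A B : Pr n) (x c y : Fin n), e = s(A, B) ∧ A.1 = {x, c} ∧ B.1 = {c, y} ∧
    x.val + y.val ≡ 2 * c.val [MOD n]

theorem IsTok.symm {e : Sym2 (Pr (2 * l + 1))} {a b : ZMod (2 * l + 1)} (h : IsTok e a b) :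
    IsTok e b a := by
  obtain ⟨c, ha, hb, rfl⟩ := h
  exact ⟨c, hb, ha, Sym2.eq_swap⟩

/-- Every edge has a token. -/
theorem exists_tok {e : Sym2 (Pr (2 * l + 1))} (he : e ∈ (flipGraph (2 * l + 1)).edgeSet) :
    ∃ a b : ZMod (2 * l + 1), a ≠ 0 ∧ b ≠ 0 ∧ a ≠ b ∧ IsTok e a b := by
  induction e using Sym2.ind with
  | _ A B =>
    rw [SimpleGraph.mem_edgeSet] at he
    obtain ⟨h1, h2⟩ : (A.1 \ B.1).card = 1 ∧ (B.1 \ A.1).card = 1 := he
    have h3 : (A.1 ∩ B.1).card = 1 := by
      have := Finset.card_sdiff_add_card_inter A.1 B.1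
      rw [h1, A.2] at this
      omega
    obtain ⟨u, hu⟩ := Finset.card_eq_one.1 h1
    obtain ⟨v, hv⟩ := Finset.card_eq_one.1 h2
    obtain ⟨c, hc⟩ := Finset.card_eq_one.1 h3
    have huA : u ∈ A.1 \ B.1 := by rw [hu]; exact Finset.mem_singleton_self u
    have hvB : v ∈ B.1 \ A.1 := by rw [hv]; exact Finset.mem_singleton_self v
    have hcc : c ∈ A.1 ∩ B.1 := by rw [hc]; exact Finset.mem_singleton_self c
    rw [Finset.mem_sdiff] at huA hvB
    rw [Finset.mem_inter] at hcc
    have hcu : c ≠ u := by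
      rintro rfl
      exact huA.2 hcc.2
    have hcv : c ≠ v := by
      rintro rfl
      exact hvB.2 hcc.1
    have huv : u ≠ v := by
      rintro rfl
      exact huA.2 hvB.1
    let c' : ZMod (2 * l + 1) := c
    let u' : ZMod (2 * l + 1) := u
    let v' : ZMod (2 * l + 1) := v
    have ecu : c' ≠ c' + (u' - c') := by
      rw [add_sub_cancel]
      exact hcu
    have ecv : c' ≠ c' + (v' - c') := by
      rw [add_sub_cancel]
      exact hcv
    refine ⟨u' - c', v' - c', sub_ne_zero.2 fun h => hcu h.symm,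
      sub_ne_zero.2 fun h => hcv h.symm, fun h => huv (sub_left_inj.1 h), c', ecu, ecv, ?_⟩
    have hA : A = mkPr c' (c' + (u' - c')) ecu := by
      apply Subtype.ext
      have hsub : (mkPr c' (c' + (u' - c')) ecu).1 ⊆ A.1 := by
        intro z hz
        have h4 : z = c' ∨ z = c' + (u' - c') := mem_mkPr.1 hz
        rw [add_sub_cancel] at h4
        rcases h4 with h4 | h4
        · rw [h4]; exact hcc.1
        · rw [h4]; exact huA.1
      exact (Finset.eq_of_subset_of_card_le hsub
        (by rw [A.2, (mkPr c' (c' + (u' - c')) ecu).2])).symm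
    have hB : B = mkPr c' (c' + (v' - c')) ecv := by
      apply Subtype.ext
      have hsub : (mkPr c' (c' + (v' - c')) ecv).1 ⊆ B.1 := by
        intro z hz
        have h4 : z = c' ∨ z = c' + (v' - c') := mem_mkPr.1 hz
        rw [add_sub_cancel] at h4
        rcases h4 with h4 | h4
        · rw [h4]; exact hcc.2
        · rw [h4]; exact hvB.1
      exact (Finset.eq_of_subset_of_card_le hsub
        (by rw [B.2, (mkPr c' (c' + (v' - c')) ecv).2])).symm
    rw [← hA, ← hB]

/-- The edges of midpoint form are those with a token `{a, - a}`. -/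
theorem isMid_iff {e : Sym2 (Pr (2 * l + 1))} (he : e ∈ (flipGraph (2 * l + 1)).edgeSet) :
    IsMid (2 * l + 1) e ↔ ∃ a : ZMod (2 * l + 1), a ≠ 0 ∧ IsTok e a (-a) := by
  have cast_val : ∀ z : Fin (2 * l + 1), ((z.val : ℕ) : ZMod (2 * l + 1)) = z := fun z =>
    ZMod.natCast_zmod_val (n := 2 * l + 1) z
  constructor
  · rintro ⟨A, B, x, c, y, rfl, hA, hB, hm⟩
    rw [SimpleGraph.mem_edgeSet] at he
    have hxc : x ≠ c := by
      rintro rfl
      have := A.2
      rw [hA] at this
      simp at this
    have hcy : c ≠ y := by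
      rintro rfl
      have := B.2
      rw [hB] at this
      simp at this
    let x' : ZMod (2 * l + 1) := x
    let c' : ZMod (2 * l + 1) := c
    let y' : ZMod (2 * l + 1) := y
    have hsum : x' + y' = 2 * c' := by
      have h1 := (ZMod.natCast_eq_natCast_iff _ _ _).2 hm
      push_cast at h1
      rw [cast_val, cast_val, cast_val] at h1
      exact h1
    have hy : y' = c' + -(x' - c') := by
      linear_combination hsum
    have hx : x' = c' + (x' - c') := by ring
    have h1 : c' ≠ c' + (x' - c') := by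
      rw [← hx]
      exact fun h => hxc h.symm
    have h2 : c' ≠ c' + -(x' - c') := by
      rw [← hy]
      exact hcy
    refine ⟨x' - c', sub_ne_zero.2 hxc, c', h1, h2, ?_⟩
    have eA : A = mkPr c' (c' + (x' - c')) h1 := by
      apply Subtype.ext
      rw [hA]
      show ({x, c} : Finset (Fin (2 * l + 1))) = {tf c', tf (c' + (x' - c'))}
      rw [← hx]
      exact Finset.pair_comm _ _
    have eB : B = mkPr c' (c' + -(x' - c')) h2 := by
      apply Subtype.ext
      rw [hB]
      show ({c, y} : Finset (Fin (2 * l + 1))) = {tf c', tf (c' + -(x' - c'))}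
      rw [← hy]
      rfl
    rw [← eA, ← eB]
  · rintro ⟨a, ha, c, h1, h2, rfl⟩
    refine ⟨_, _, tf (c + a), tf c, tf (c + -a), rfl, Finset.pair_comm _ _, rfl, ?_⟩
    rw [← ZMod.natCast_eq_natCast_iff]
    push_cast
    rw [cast_val, cast_val, cast_val]
    show (c + a) + (c + -a) = 2 * c
    ring

/-- The sign of a Boolean. -/
def bs (l : ℕ) (b : Bool) : ZMod (2 * l + 1) := if b then 1 else -1

theorem bs_pm (b : Bool) : bs l b = 1 ∨ bs l b = -1 := by
  cases b
  · exact Or.inr rfl
  · exact Or.inl rfl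

theorem bs_inj (hl : 0 < l) {b c : Bool} (h : bs l b = bs l c) : b = c := by
  have h1 := one_ne_neg hl
  cases b <;> cases c
  · rfl
  · exact absurd (show (-1 : ZMod (2 * l + 1)) = 1 from h).symm h1
  · exact absurd (show (1 : ZMod (2 * l + 1)) = -1 from h) h1
  · rfl

/-- The properties of the primitive root that are used. -/
structure Prim (l : ℕ) (g : ZMod (2 * l + 1)) : Prop where
  gl : g ^ l = -1
  ex : ∀ z : ZMod (2 * l + 1), z ≠ 0 → ∃ m : ℕ, z = g ^ m
  inj : ∀ a b : ℕ, (g ^ a = g ^ b ∨ g ^ a = -g ^ b) → a ≡ b [MOD l]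

theorem Prim.unit (hl : 0 < l) {g : ZMod (2 * l + 1)} (h : Prim l g) : IsUnit g := by
  have h1 : IsUnit (g ^ l) := by
    rw [h.gl]
    exact isUnit_one.neg
  exact (isUnit_pow_iff (by omega)).1 h1

theorem JJ_pos (hl : 3 ≤ l) {j : ℕ} (hj : j ∈ JJ l) : 0 < j := by
  rcases Nat.eq_zero_or_pos j with h | h
  · exfalso
    subst h
    have := (mem_JJ.1 hj).1
    rw [Nat.coprime_zero_left] at this
    omega
  · exact h

/-- `d g ^ j` is not `± 1`. -/
theorem Prim.ne_one (hl : 3 ≤ l) {g : ZMod (2 * l + 1)} (h : Prim l g) {j : ℕ}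
    (hj0 : 0 < j) (hj : j < l) (b : Bool) :
    bs l b * g ^ j ≠ 1 ∧ bs l b * g ^ j ≠ -1 := by
  have key : (g ^ j = g ^ 0 ∨ g ^ j = -g ^ 0) → False := by
    intro h1
    have h2 := h.inj j 0 h1
    have h3 : l ∣ j := (Nat.modEq_zero_iff_dvd).1 h2
    have := Nat.le_of_dvd hj0 h3
    omega
  constructor
  · intro h1
    apply key
    rw [pow_zero]
    rcases bs_pm (l := l) b with h2 | h2 <;> rw [h2] at h1
    · left; linear_combination h1
    · right; linear_combination -h1
  · intro h1
    apply key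
    rw [pow_zero]
    rcases bs_pm (l := l) b with h2 | h2 <;> rw [h2] at h1
    · right; linear_combination h1
    · left; linear_combination -h1

/-- The index type of the family. -/
abbrev Idx (l : ℕ) : Type := {j // j ∈ JJ l} × Bool × Bool

theorem card_Idx (hl : 3 ≤ l) : Fintype.card (Idx l) = 2 * Nat.totient l := by
  rw [Fintype.card_prod, Fintype.card_prod, Fintype.card_bool, Fintype.card_coe, card_JJ hl]
  ring

/-- The ratio of an index. -/
def rat (g : ZMod (2 * l + 1)) (t : Idx l) : ZMod (2 * l + 1) := bs l t.2.1 * g ^ t.1.1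

/-- The data of an index. -/
noncomputable def idxData (hp : (2 * l + 1).Prime) (hl : 3 ≤ l) {g : ZMod (2 * l + 1)}
    (h : Prim l g) (t : Idx l) : RData l :=
  geoData (rat g t) (bs l t.2.2) (bs_pm _)
    (gen_of (by omega) h.gl h.ex (mem_JJ.1 t.1.2).1 (bs_pm _))
    (by
      unfold rat
      rw [mul_pow, ← pow_mul, mul_comm t.1.1 l, pow_mul, h.gl]
      rcases bs_pm (l := l) t.2.1 with h1 | h1 <;> rw [h1]
      · rw [one_pow, one_mul]
        exact neg_one_pow_eq_or _ _
      · rw [← pow_add]
        exact neg_one_pow_eq_or _ _)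
    (by
      unfold rat
      refine IsUnit.mul ?_ ((h.unit (by omega)).pow _)
      rcases bs_pm (l := l) t.2.1 with h1 | h1 <;> rw [h1]
      · exact isUnit_one
      · exact isUnit_one.neg)
    (by
      haveI := Fact.mk hp
      refine IsUnit.mk0 _ (sub_ne_zero.2 ?_)
      exact (h.ne_one hl (JJ_pos hl t.1.2) (by have := (mem_JJ.1 t.1.2).2; omega) t.2.1).1)

theorem idx_ne (hl : 3 ≤ l) {g : ZMod (2 * l + 1)} (h : Prim l g) {t t' : Idx l}
    (hr : rat g t = rat g t' ∨ rat g t * rat g t' = 1) : t.1 = t'.1 ∧ t.2.1 = t'.2.1 := by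
  have hj := mem_JJ.1 t.1.2
  have hj' := mem_JJ.1 t'.1.2
  have hp := JJ_pos hl t.1.2
  have hgu := h.unit (by omega)
  unfold rat at hr
  rcases hr with hr | hr
  · have h1 : g ^ t.1.1 = g ^ t'.1.1 ∨ g ^ t.1.1 = -g ^ t'.1.1 := by
      rcases bs_pm (l := l) t.2.1 with h2 | h2 <;> rcases bs_pm (l := l) t'.2.1 with h3 | h3 <;>
        rw [h2, h3] at hr
      · left; linear_combination hr
      · right; linear_combination hr
      · right; linear_combination -hr
      · left; linear_combination -hr
    have h4 := h.inj _ _ h1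
    have h5 : t.1.1 = t'.1.1 := Nat.ModEq.eq_of_lt_of_lt h4 (by omega) (by omega)
    refine ⟨Subtype.ext h5, bs_inj (l := l) (by omega) ?_⟩
    rw [h5] at hr
    have h6 : (bs l t.2.1 - bs l t'.2.1) * g ^ t'.1.1 = 0 := by
      linear_combination hr
    exact sub_eq_zero.1 (cancel (hgu.pow _) h6)
  · exfalso
    have h1 : g ^ (t.1.1 + t'.1.1) = g ^ 0 ∨ g ^ (t.1.1 + t'.1.1) = -g ^ 0 := by
      rw [pow_add, pow_zero]
      rcases bs_pm (l := l) t.2.1 with h2 | h2 <;> rcases bs_pm (l := l) t'.2.1 with h3 | h3 <;>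
        rw [h2, h3] at hr
      · left; linear_combination hr
      · right; linear_combination -hr
      · right; linear_combination -hr
      · left; linear_combination hr
    have h2 := h.inj _ _ h1
    have h3 : l ∣ t.1.1 + t'.1.1 := (Nat.modEq_zero_iff_dvd).1 h2
    have := Nat.le_of_dvd (by omega) h3
    omega

/-- The family of geometric rainbow cycles. -/
theorem geometric (hl : 3 ≤ l) (hp : (2 * l + 1).Prime) :
    ∃ (v : Fin (2 * Nat.totient l) → Pr (2 * l + 1))
      (w : ∀ i, (flipGraph (2 * l + 1)).Walk (v i) (v i)),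
      (∀ i, IsRainbowCycle (w i)) ∧
      (∀ i j, i ≠ j → ∀ e, e ∈ (w i).edges → e ∉ (w j).edges) ∧
      (l.Prime → ∀ e ∈ (flipGraph (2 * l + 1)).edgeSet,
        ((∃ i, e ∈ (w i).edges) ↔ ¬ IsMid (2 * l + 1) e)) := by
  obtain ⟨g, hg0, hgl, hex, hinj⟩ := prim_root hp (by omega)
  have h : Prim l g := ⟨hgl, hex, hinj⟩
  have hl0 : 0 < l := by omega
  choose v w hw he using fun t : Idx l => (idxData hp hl h t).exists_cycle_iff hl0
  let E : Fin (2 * Nat.totient l) ≃ Idx l := (Fintype.equivFinOfCardEq (card_Idx hl)).symm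
  have xdef : ∀ t k, (idxData hp hl h t).x k
      = bs l t.2.2 * (ab (rat g t ^ k) : ZMod (2 * l + 1)) := fun _ _ => rfl
  have ydef : ∀ t k, (idxData hp hl h t).y k
      = bs l t.2.2 * (ab (rat g t ^ k) : ZMod (2 * l + 1)) * rat g t := fun _ _ => rfl
  have hratu : ∀ t : Idx l, IsUnit (rat g t) := by
    intro t
    unfold rat
    refine IsUnit.mul ?_ ((h.unit (by omega)).pow _)
    rcases bs_pm (l := l) t.2.1 with h1 | h1 <;> rw [h1]
    · exact isUnit_one
    · exact isUnit_one.neg
  have habu : ∀ (t : Idx l) (k : ℕ), IsUnit ((ab (rat g t ^ k) : ℕ) : ZMod (2 * l + 1)) := by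
    intro t k
    rcases ab_cast (rat g t ^ k) with h1 | h1 <;> rw [h1]
    · exact (hratu t).pow k
    · exact ((hratu t).pow k).neg
  have hne0 : ∀ (t : Idx l) (k : ℕ), rat g t ^ k ≠ 0 := by
    intro t k h1
    have h2 := (hratu t).pow k
    rw [h1] at h2
    obtain ⟨z, hz⟩ := h2.exists_right_inv
    rw [zero_mul] at hz
    exact const_ne (l := l) (a := 1) one_pos (by omega) (by rw [Nat.cast_one]; exact hz.symm)
  refine ⟨fun i => v (E i), fun i => w (E i), fun i => hw (E i), ?_, ?_⟩
  · intro i j hij e hei hej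
    have hne : E i ≠ E j := fun h1 => hij (E.injective h1)
    obtain ⟨k, hk, h1⟩ := (he (E i) e).1 hei
    obtain ⟨m, hm, h2⟩ := (he (E j) e).1 hej
    have h3 := tok_unique ((idxData hp hl h (E i)).x_ne_y hl0 k) h1 h2
    rw [xdef, ydef, xdef, ydef] at h3
    rcases geo_tok (bs_pm _) (bs_pm _) (ab_pos (hne0 _ _)) (ab_le _) (ab_pos (hne0 _ _))
      (ab_le _) (habu _ _) h3 with ⟨h4, h5⟩ | h4
    · obtain ⟨h6, h7⟩ := idx_ne hl h (Or.inl h4)
      exact hne (Prod.ext h6 (Prod.ext h7 (bs_inj hl0 h5)))
    · -- the ratios are inverse: impossible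
      obtain ⟨h6, h7⟩ := idx_ne hl h (Or.inr h4)
      have h8 : rat g (E i) = rat g (E j) := by
        unfold rat
        rw [h6, h7]
      rw [← h8] at h4
      haveI := Fact.mk hp
      rcases mul_self_eq_one_iff.1 h4 with h9 | h9
      · exact (h.ne_one hl (JJ_pos hl (E i).1.2)
          (by have := (mem_JJ.1 (E i).1.2).2; omega) (E i).2.1).1 h9
      · exact (h.ne_one hl (JJ_pos hl (E i).1.2)
          (by have := (mem_JJ.1 (E i).1.2).2; omega) (E i).2.1).2 h9
  · intro hlp e hee
    rw [isMid_iff hee]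
    constructor
    · rintro ⟨i, hei⟩ ⟨a, ha, hmid⟩
      obtain ⟨k, hk, h1⟩ := (he (E i) e).1 hei
      have h3 := tok_unique ((idxData hp hl h (E i)).x_ne_y hl0 k) h1 hmid
      rw [xdef, ydef] at h3
      have h4 : rat g (E i) = -1 := by
        have hu : IsUnit (bs l (E i).2.2 * (ab (rat g (E i) ^ k) : ZMod (2 * l + 1))) := by
          refine IsUnit.mul ?_ (habu _ _)
          rcases bs_pm (l := l) (E i).2.2 with h1 | h1 <;> rw [h1]
          · exact isUnit_one
          · exact isUnit_one.neg
        have h5 : (rat g (E i) + 1) *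
            (bs l (E i).2.2 * (ab (rat g (E i) ^ k) : ZMod (2 * l + 1))) = 0 := by
          rcases h3 with ⟨h6, h7⟩ | ⟨h6, h7⟩
          · linear_combination h6 + h7
          · linear_combination h6 + h7
        have := cancel hu h5
        linear_combination this
      exact (h.ne_one hl (JJ_pos hl (E i).1.2)
        (by have := (mem_JJ.1 (E i).1.2).2; omega) (E i).2.1).2 h4
    · intro hnm
      -- the key: a token `{a, a r}` with `r` a ratio of the family is covered
      have key : ∀ (a b : ZMod (2 * l + 1)) (j : ℕ) (c : Bool), a ≠ 0 → j ∈ JJ l →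
          b = a * (bs l c * g ^ j) → IsTok e a b → ∃ i, e ∈ (w (E i)).edges := by
        intro a b j c ha hj hb ht
        obtain ⟨d, hd⟩ : ∃ d : Bool, a = bs l d * (ab a : ZMod (2 * l + 1)) := by
          rcases ab_cast a with h1 | h1
          · exact ⟨true, by rw [h1]; show a = 1 * a; ring⟩
          · exact ⟨false, by rw [h1]; show a = -1 * -a; ring⟩
        obtain ⟨k, hk, hak⟩ : ∃ k < l, ab a = ab ((bs l c * g ^ j) ^ k) := by
          obtain ⟨k, hk, h1⟩ := gen_of (l := l) (by omega) h.gl h.ex (mem_JJ.1 hj).1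
            (bs_pm c) a ha
          exact ⟨k, hk, ab_congr h1⟩
        refine ⟨E.symm (⟨j, hj⟩, c, d), ?_⟩
        rw [E.apply_symm_apply, he]
        refine ⟨k, hk, ?_⟩
        rw [xdef, ydef]
        show IsTok e (bs l d * (ab ((bs l c * g ^ j) ^ k) : ZMod (2 * l + 1)))
          (bs l d * (ab ((bs l c * g ^ j) ^ k) : ZMod (2 * l + 1)) * (bs l c * g ^ j))
        rw [← hak, ← hd, ← hb]
        exact ht
      obtain ⟨a, b, ha, hb, hab, ht⟩ := exists_tok hee
      haveI := Fact.mk hp
      obtain ⟨m, hm⟩ := h.ex (b / a) (div_ne_zero hb ha)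
      have hbm : b = a * g ^ m := by
        rw [← hm]
        field_simp
      have hm0 : m % l ≠ 0 := by
        intro h0
        have h1 := pow_mod hgl m
        rw [h0, pow_zero] at h1
        rcases h1 with h1 | h1
        · apply hab
          rw [hbm, h1, mul_one]
        · apply hnm
          refine ⟨a, ha, ?_⟩
          have : b = -a := by rw [hbm, h1]; ring
          rw [← this]
          exact ht
      have hml : m % l < l := Nat.mod_lt _ hl0
      have hcop : Nat.Coprime (m % l) l :=
        (Nat.Coprime.symm ((Nat.Prime.coprime_iff_not_dvd hlp).2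
          (fun hd => absurd (Nat.le_of_dvd (Nat.pos_of_ne_zero hm0) hd) (by omega))))
      have hpm := pow_mod hgl m
      rcases Nat.lt_or_ge (2 * (m % l)) l with h2 | h2
      · have hj : m % l ∈ JJ l := mem_JJ.2 ⟨hcop, h2⟩
        rcases hpm with h3 | h3
        · refine key a b (m % l) true ha hj ?_ ht
          show b = a * (1 * g ^ (m % l))
          rw [one_mul, ← h3]
          exact hbm
        · refine key a b (m % l) false ha hj ?_ ht
          show b = a * (-1 * g ^ (m % l))
          rw [neg_one_mul, ← h3]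
          exact hbm
      · have hj : l - m % l ∈ JJ l := by
          refine mem_JJ.2 ⟨?_, ?_⟩
          · rw [Nat.coprime_comm, Nat.coprime_self_sub_right hml.le]
            exact hcop.symm
          · have hodd : 2 * (m % l) ≠ l := by
              intro h3
              have h4 : m % l ∣ l := ⟨2, by omega⟩
              rcases (Nat.dvd_prime hlp).1 h4 with h5 | h5 <;> omega
            omega
        have h3 : g ^ (m % l) * g ^ (l - m % l) = -1 := by
          rw [← pow_add]
          have : m % l + (l - m % l) = l := by omega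
          rw [this, hgl]
        rcases hpm with h4 | h4
        · refine key b a (l - m % l) false hb hj ?_ ht.symm
          show a = b * (-1 * g ^ (l - m % l))
          rw [hbm, h4]
          linear_combination a * h3
        · refine key b a (l - m % l) true hb hj ?_ ht.symm
          show a = b * (1 * g ^ (l - m % l))
          rw [hbm, h4]
          linear_combination a * h3

end Pool.Agent.FR
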