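import Pool.Agent.Hhelper34.FR.Tok

/-! Hits of ordinary tokens on special ones, and the choice of signs. -/

namespace Pool.Agent.FR

open Finset

variable {l : ℕ}

/-- The ordinary step `k` of `w` hits a special token of the first kind. -/
def HI (l i : ℕ) (w : ZMod (2 * l + 1)) (k : ℕ) : Prop :=
  k + 1 < l ∧ k + 1 ≠ i ∧ ∃ u, IsU l u ∧
    TE (w * yr l i k) (w * yr l i (k + 1)) (u * yr l i (i - 1)) (u * yr l i i)

/-- The ordinary step `k` of `w` hits a special token of the second kind. -/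
def HL (l i : ℕ) (w : ZMod (2 * l + 1)) (k : ℕ) : Prop :=
  k + 1 < l ∧ k + 1 ≠ i ∧ ∃ u, IsU l u ∧
    TE (w * yr l i k) (w * yr l i (k + 1)) (u * yr l i (l - 1)) (u * yr l i l)

theorem hitI {i k : ℕ} {a b : ZMod (2 * l + 1)} (h : Par l i a b) (hi : 0 < i) (hil : i < l)
    {w : ZMod (2 * l + 1)} (hw : IsUnit w) (ht : HI l i w k) :
    a * (2 * k + 3) = 2 ∨ a * (2 * k + 3) = -2 := by
  obtain ⟨hk, hki, u, _, ht⟩ := ht
  obtain ⟨t, _, hs, hd⟩ := specI h hi hil
  obtain ⟨s, hs1, hs2, hs3⟩ := ordR (l := l) (i := i) hk hki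
  have h1 := ht.sum
  have h2 := ht.diff
  have hss : s * s = 1 := by
    rcases hs1 with hs1 | hs1 <;> rw [hs1] <;> ring
  -- `2 w s = u a t`
  have k1 : 2 * w * s = u * a * t := by
    linear_combination 2 * h1 - 2 * w * hs2 + (u : ZMod (2 * l + 1)) * hs
  have k2 : w * s * (2 * k + 3) = u * t ∨ w * s * (2 * k + 3) = -(u * t) := by
    rcases h2 with h2 | h2
    · left
      linear_combination h2 - w * hs3 + (u : ZMod (2 * l + 1)) * hd
    · right
      linear_combination h2 - w * hs3 - (u : ZMod (2 * l + 1)) * hd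
  rcases k2 with k2 | k2
  · left
    have : (a * (2 * k + 3) - 2) * w = 0 := by
      linear_combination s * a * k2 - s * k1 - (a * (2 * k + 3) - 2) * w * hss
    exact sub_eq_zero.1 (cancel hw this)
  · right
    have : (a * (2 * k + 3) + 2) * w = 0 := by
      linear_combination s * a * k2 + s * k1 - (a * (2 * k + 3) + 2) * w * hss
    have := cancel hw this
    linear_combination this

theorem hitL {i k : ℕ} {a b : ZMod (2 * l + 1)} (h : Par l i a b) (hi : 0 < i) (hil : i < l)
    {w : ZMod (2 * l + 1)} (hw : IsUnit w) (ht : HL l i w k) :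
    b * (2 * k + 3) = a ∨ b * (2 * k + 3) = -a := by
  obtain ⟨hk, hki, u, _, ht⟩ := ht
  obtain ⟨hs, hd⟩ := specL h hi hil
  obtain ⟨s, hs1, hs2, hs3⟩ := ordR (l := l) (i := i) hk hki
  have h1 := ht.sum
  have h2 := ht.diff
  have hss : s * s = 1 := by
    rcases hs1 with hs1 | hs1 <;> rw [hs1] <;> ring
  have k1 : 2 * w * s = u * b := by
    linear_combination 2 * h1 - 2 * w * hs2 + (u : ZMod (2 * l + 1)) * hs
  have k2 : 2 * w * s * (2 * k + 3) = u * a ∨ 2 * w * s * (2 * k + 3) = -(u * a) := by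
    rcases h2 with h2 | h2
    · left
      linear_combination 2 * h2 - 2 * w * hs3 + (u : ZMod (2 * l + 1)) * hd
    · right
      linear_combination 2 * h2 - 2 * w * hs3 - (u : ZMod (2 * l + 1)) * hd
  have h2u := isUnit_two (l := l)
  rcases k2 with k2 | k2
  · left
    have : (b * (2 * k + 3) - a) * (2 * w) = 0 := by
      linear_combination s * b * k2 - s * a * k1 - (b * (2 * k + 3) - a) * (2 * w) * hss
    exact sub_eq_zero.1 (cancel (h2u.mul hw) this)
  · right
    have : (b * (2 * k + 3) + a) * (2 * w) = 0 := by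
      linear_combination s * b * k2 + s * a * k1 - (b * (2 * k + 3) + a) * (2 * w) * hss
    have := cancel (h2u.mul hw) this
    linear_combination this

/-- The two kinds exclude each other. -/
theorem hit_excl (hl : 6 ≤ l) {i k : ℕ} {a b : ZMod (2 * l + 1)} (h : Par l i a b) (hi : 0 < i)
    (hil : i < l) {w : ZMod (2 * l + 1)} (h1 : HI l i w k) (h2 : HL l i w k) : False := by
  obtain ⟨_, _, u, hu, h1⟩ := h1
  obtain ⟨_, _, v, hv, h2⟩ := h2
  have h3 := h1.symm.trans h2
  refine ssIL hl h hi hil hu hv (e := 1) (Or.inl rfl) ?_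
  rw [one_mul, one_mul]
  exact h3

/-- A token and its negative are not both special. -/
theorem hit_neg (hl : 6 ≤ l) {i k : ℕ} {a b : ZMod (2 * l + 1)} (h : Par l i a b) (hi : 0 < i)
    (hil : i < l) {w : ZMod (2 * l + 1)} (h1 : HI l i w k ∨ HL l i w k) :
    ¬ HI l i (-w) k ∧ ¬ HL l i (-w) k := by
  have hne := one_ne_neg (l := l) (by omega)
  have key : ∀ p q : ZMod (2 * l + 1), TE (-w * yr l i k) (-w * yr l i (k + 1)) p q →
      TE (w * yr l i k) (w * yr l i (k + 1)) (-1 * p) (-1 * q) := by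
    intro p q hpq
    rw [neg_mul, neg_mul] at hpq
    have := hpq.neg
    rw [neg_one_mul, neg_one_mul]
    exact this
  rcases h1 with ⟨_, _, u, hu, h1⟩ | ⟨_, _, u, hu, h1⟩
  · constructor
    · rintro ⟨_, _, v, hv, h2⟩
      exact hne.symm (ssII hl h hi hil hu hv (Or.inr rfl) (h1.symm.trans (key _ _ h2))).1
    · rintro ⟨_, _, v, hv, h2⟩
      exact ssIL hl h hi hil hu hv (Or.inr rfl) (h1.symm.trans (key _ _ h2))
  · constructor
    · rintro ⟨_, _, v, hv, h2⟩
      have h3 := (h1.symm.trans (key _ _ h2)).symm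
      rw [neg_one_mul, neg_one_mul] at h3
      have h4 := h3.neg
      rw [← neg_one_mul, ← neg_one_mul ((u : ZMod (2 * l + 1)) * yr l i l)] at h4
      exact ssIL hl h hi hil hv hu (Or.inr rfl) h4
    · rintro ⟨_, _, v, hv, h2⟩
      exact hne.symm (ssLL hl h hi hil hu hv (Or.inr rfl) (h1.symm.trans (key _ _ h2))).1

/-! ### Sums over the hits -/

theorem sum_uniq (d : ℕ → ZMod (2 * l + 1)) (P : ℕ → Prop) [DecidablePred P]
    (hu : ∀ a < l, ∀ b < l, P a → P b → a = b) :
    (∑ k ∈ range l, if P k then d k else 0) = 0 ∨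
      ∃ k < l, P k ∧ (∑ k ∈ range l, if P k then d k else 0) = d k := by
  by_cases h : ∃ k < l, P k
  · obtain ⟨k, hk, hP⟩ := h
    right
    refine ⟨k, hk, hP, ?_⟩
    rw [Finset.sum_eq_single_of_mem k (Finset.mem_range.2 hk), if_pos hP]
    intro b hb hne
    exact if_neg fun hPb => hne (hu b (Finset.mem_range.1 hb) k hk hPb hP)
  · left
    refine Finset.sum_eq_zero fun k hk => if_neg fun hP => h ⟨k, Finset.mem_range.1 hk, hP⟩

theorem sum_signs (d : ℕ → ZMod (2 * l + 1)) (P Q : ℕ → Prop) [DecidablePred P]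
    [DecidablePred Q] (hPQ : ∀ k, ¬ (P k ∧ Q k)) :
    ∑ k ∈ range l, (if P k ∨ Q k then (-1 : ZMod (2 * l + 1)) else 1) * d k
      = ∑ k ∈ range l, d k - 2 * (∑ k ∈ range l, if P k then d k else 0)
        - 2 * (∑ k ∈ range l, if Q k then d k else 0) := by
  rw [Finset.mul_sum, Finset.mul_sum, ← Finset.sum_sub_distrib, ← Finset.sum_sub_distrib]
  refine Finset.sum_congr rfl fun k _ => ?_
  by_cases hP : P k
  · have hQ : ¬ Q k := fun hQ => hPQ k ⟨hP, hQ⟩
    rw [if_pos (Or.inl hP), if_pos hP, if_neg hQ]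
    ring
  · by_cases hQ : Q k
    · rw [if_pos (Or.inr hQ), if_neg hP, if_pos hQ]
      ring
    · rw [if_neg (by tauto), if_neg hP, if_neg hQ]
      ring

/-- The differences. -/
def dl (l i k : ℕ) : ZMod (2 * l + 1) := ((yb l i (k + 1) - yb l i k : ℤ) : ZMod (2 * l + 1))

theorem dl_eq (i k : ℕ) : dl l i k = yr l i (k + 1) - yr l i k := by
  unfold dl yr
  push_cast
  rfl

theorem sum_dl {i : ℕ} (h : i ≤ l) (hi : 0 < i) : ∑ k ∈ range l, dl l i k = 2 := by
  have := congrArg (fun z : ℤ => (z : ZMod (2 * l + 1))) (yb_sum h hi)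
  unfold dl
  push_cast at this
  push_cast
  exact this

theorem isUnit_of_three {z c : ZMod (2 * l + 1)} (hc : IsUnit c) (h : 3 * z = c) : IsUnit z := by
  rw [← h] at hc
  exact (IsUnit.mul_iff.1 hc).2

theorem isUnit_two_pow (m : ℕ) : IsUnit ((2 : ZMod (2 * l + 1)) ^ m) := isUnit_two.pow m

/-- Admissible signs for the unit `w`. -/
structure Good (l i : ℕ) (w : ZMod (2 * l + 1)) (e : ℕ → ZMod (2 * l + 1)) : Prop where
  sg : ∀ k, e k = 1 ∨ e k = -1
  e1 : e (i - 1) = 1
  e2 : e (l - 1) = 1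
  nI : ∀ k, ¬ HI l i (e k * w) k
  nL : ∀ k, ¬ HL l i (e k * w) k
  T : IsUnit (∑ k ∈ range l, e k * dl l i k)

/-- Uniqueness of the step with `3 (2 k + 3) = ± c`. -/
theorem uniq3 {c : ZMod (2 * l + 1)} (hc : IsUnit c) {a b : ℕ} (ha : a + 1 < l) (hb : b + 1 < l)
    (h1 : 3 * (2 * (a : ZMod (2 * l + 1)) + 3) = c ∨ 3 * (2 * (a : ZMod (2 * l + 1)) + 3) = -c)
    (h2 : 3 * (2 * (b : ZMod (2 * l + 1)) + 3) = c ∨ 3 * (2 * (b : ZMod (2 * l + 1)) + 3) = -c) :
    a = b := by
  have h3 : IsUnit (3 : ZMod (2 * l + 1)) := by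
    rcases h1 with h1 | h1
    · rw [← h1] at hc
      exact (IsUnit.mul_iff.1 hc).1
    · have hc' := hc.neg
      rw [← h1] at hc'
      exact (IsUnit.mul_iff.1 hc').1
  have hab : ((2 * (a + 1) + 1 : ℕ) : ZMod (2 * l + 1)) = ((2 * (b + 1) + 1 : ℕ) : ZMod _) ∨
      ((2 * (a + 1) + 1 : ℕ) : ZMod (2 * l + 1)) = -((2 * (b + 1) + 1 : ℕ) : ZMod _) := by
    push_cast
    rcases h1 with h1 | h1 <;> rcases h2 with h2 | h2
    · left
      have : (2 * (a : ZMod (2 * l + 1)) + 3 - (2 * b + 3)) * 3 = 0 := by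
        linear_combination h1 - h2
      have := cancel h3 this
      linear_combination this
    · right
      have : (2 * (a : ZMod (2 * l + 1)) + 3 + (2 * b + 3)) * 3 = 0 := by
        linear_combination h1 + h2
      have := cancel h3 this
      linear_combination this
    · right
      have : (2 * (a : ZMod (2 * l + 1)) + 3 + (2 * b + 3)) * 3 = 0 := by
        linear_combination h1 + h2
      have := cancel h3 this
      linear_combination this
    · left
      have : (2 * (a : ZMod (2 * l + 1)) + 3 - (2 * b + 3)) * 3 = 0 := by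
        linear_combination h1 - h2
      have := cancel h3 this
      linear_combination this
  have := odd_inj ha hb hab
  omega

end Pool.Agent.FR
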