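import Pool.Agent.Hhelper34.FR.Sig

/-! `φ(n) / 2` pairwise edge-disjoint rainbow cycles. -/

namespace Pool.Agent.FR

open Finset Pool.Agent.FB

variable {l : ℕ}

/-- Tokens of different units are different. -/
theorem tokens_ne (hl : 6 ≤ l) {i : ℕ} {a b : ZMod (2 * l + 1)} (h : Par l i a b) (hi : 0 < i)
    (hil : i < l) {u w : ℕ} (hu : IsU l u) (hw : IsU l w) (huw : u ≠ w)
    {e f : ℕ → ZMod (2 * l + 1)} (he : Good l i u e) (hf : Good l i w f)
    {k m : ℕ} (hk : k < l) (hm : m < l)
    (ht : TE (e k * (u * yr l i k)) (e k * (u * yr l i (k + 1)))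
      (f m * (w * yr l i m)) (f m * (w * yr l i (m + 1)))) : False := by
  -- the ordinary step against the special ones
  have os : ∀ (u w : ℕ) (e f : ℕ → ZMod (2 * l + 1)), IsU l u → IsU l w → Good l i u e →
      Good l i w f → ∀ k m : ℕ, k + 1 < l → k + 1 ≠ i → (m + 1 = i ∨ m + 1 = l) →
      TE (e k * (u * yr l i k)) (e k * (u * yr l i (k + 1)))
        (f m * (w * yr l i m)) (f m * (w * yr l i (m + 1))) → False := by
    intro u w e f hu hw he hf k m hk hki hm ht
    rw [← mul_assoc, ← mul_assoc] at ht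
    rcases hm with hm | hm
    · have e1 : m = i - 1 := by omega
      subst e1
      rw [hf.e1, one_mul, one_mul, hm] at ht
      exact he.nI k ⟨hk, hki, w, hw, ht⟩
    · have e1 : m = l - 1 := by omega
      subst e1
      rw [hf.e2, one_mul, one_mul, hm] at ht
      exact he.nL k ⟨hk, hki, w, hw, ht⟩
  by_cases ok : k + 1 < l ∧ k + 1 ≠ i
  · by_cases om : m + 1 < l ∧ m + 1 ≠ i
    · obtain ⟨s, hs1, hs2, _⟩ := ordR (l := l) (i := i) ok.1 ok.2
      obtain ⟨t, ht1, ht2, _⟩ := ordR (l := l) (i := i) om.1 om.2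
      have h1 := ht.sum
      have h2 : e k * s * u = f m * t * w := by
        linear_combination h1 - e k * u * hs2 + f m * w * ht2
      have h3 : (u : ZMod (2 * l + 1)) = w ∨ (u : ZMod (2 * l + 1)) = -w := by
        rcases he.sg k with h4 | h4 <;> rcases hs1 with h5 | h5 <;>
          rcases hf.sg m with h6 | h6 <;> rcases ht1 with h7 | h7 <;>
          rw [h4, h5, h6, h7] at h2 <;>
          first
            | (left; linear_combination h2)
            | (right; linear_combination h2)
            | (left; linear_combination -h2)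
            | (right; linear_combination -h2)
      rcases h3 with h3 | h3
      · exact huw (hu.eq hw h3)
      · exact hu.ne_neg hw h3
    · refine os u w e f hu hw he hf k m ok.1 ok.2 ?_ ht
      omega
  · by_cases om : m + 1 < l ∧ m + 1 ≠ i
    · refine os w u f e hw hu hf he m k om.1 om.2 ?_ ht.symm
      omega
    · have hk' : k = i - 1 ∨ k = l - 1 := by omega
      have hm' : m = i - 1 ∨ m = l - 1 := by omega
      have hi1 : i - 1 + 1 = i := by omega
      have hl1 : l - 1 + 1 = l := by omega
      rcases hk' with hk' | hk' <;> rcases hm' with hm' | hm' <;> subst hk' <;> subst hm'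
      · rw [he.e1, one_mul, one_mul, hf.e1, hi1] at ht
        exact huw (ssII hl h hi hil hu hw (Or.inl rfl) ht).2
      · rw [he.e1, one_mul, one_mul, hf.e2, hi1, hl1] at ht
        exact ssIL hl h hi hil hu hw (Or.inl rfl) ht
      · rw [he.e2, hf.e1, one_mul (w * yr l i (i - 1)), one_mul (w * yr l i (i - 1 + 1)), hi1,
          hl1] at ht
        exact ssIL hl h hi hil hw hu (Or.inl rfl) ht.symm
      · rw [he.e2, hf.e2, one_mul ((u : ZMod (2 * l + 1)) * yr l i (l - 1)),
          one_mul ((u : ZMod (2 * l + 1)) * yr l i (l - 1 + 1)), hl1] at ht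
        exact huw (ssLL hl h hi hil hu hw (Or.inl rfl) ht).2

/-- The transversal as a finite set. -/
def US (l : ℕ) : Finset ℕ := (Finset.Icc 1 l).filter (fun u => Nat.Coprime u (2 * l + 1))

theorem mem_US {u : ℕ} : u ∈ US l ↔ IsU l u := by
  unfold US
  rw [Finset.mem_filter, Finset.mem_Icc]
  exact ⟨fun h => ⟨h.1.1, h.1.2, h.2⟩, fun h => ⟨⟨h.pos, h.le⟩, h.cop⟩⟩

theorem totient_le (hl : 0 < l) : Nat.totient (2 * l + 1) ≤ 2 * (US l).card := by
  have h1 : ((Finset.range (2 * l + 1)).filter (Nat.Coprime (2 * l + 1))) ⊆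
      US l ∪ (US l).image (fun u => 2 * l + 1 - u) := by
    intro a ha
    rw [Finset.mem_filter, Finset.mem_range] at ha
    rw [Finset.mem_union, Finset.mem_image]
    have ha0 : a ≠ 0 := by
      rintro rfl
      have := ha.2
      rw [Nat.coprime_zero_right] at this
      omega
    rcases Nat.lt_or_ge l a with h | h
    · right
      refine ⟨2 * l + 1 - a, mem_US.2 ⟨by omega, by omega, ?_⟩, by omega⟩
      rw [Nat.coprime_comm, Nat.coprime_self_sub_right ha.1.le]
      exact ha.2
    · left
      exact mem_US.2 ⟨by omega, h, ha.2.symm⟩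
  calc Nat.totient (2 * l + 1)
      = ((Finset.range (2 * l + 1)).filter (Nat.Coprime (2 * l + 1))).card := rfl
    _ ≤ (US l ∪ (US l).image (fun u => 2 * l + 1 - u)).card := Finset.card_le_card h1
    _ ≤ (US l).card + ((US l).image (fun u => 2 * l + 1 - u)).card := Finset.card_union_le _ _
    _ ≤ (US l).card + (US l).card := by
        have := Finset.card_image_le (s := US l) (f := fun u => 2 * l + 1 - u)
        omega
    _ = 2 * (US l).card := by ring

/-- At least `φ(n) / 2` pairwise edge-disjoint rainbow cycles. -/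
theorem many_disjoint (hl : 6 ≤ l) :
    HasDisjointRainbow (2 * l + 1) (Nat.totient (2 * l + 1) / 2) := by
  obtain ⟨i, hi, hil, hpar2, a, b, hpar⟩ : ∃ i : ℕ, 0 < i ∧ i < l ∧
      (l = 2 * i ∨ l + 1 = 2 * i) ∧ ∃ a b : ZMod (2 * l + 1), Par l i a b := by
    rcases Nat.even_or_odd' l with ⟨i, h | h⟩
    · exact ⟨i, by omega, by omega, Or.inl h, 1, 3, Or.inl ⟨h, rfl, rfl⟩⟩
    · exact ⟨i + 1, by omega, by omega, Or.inr (by omega), 3, 1,
        Or.inr ⟨by omega, rfl, rfl⟩⟩
  have hgood : ∀ u : ℕ, IsU l u → ∃ e, Good l i (u : ZMod (2 * l + 1)) e := by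
    intro u hu
    rcases hpar2 with h | h
    · exact good_even hl h hu.unit
    · exact good_odd hl h hu.unit
  have hcard : Nat.totient (2 * l + 1) / 2 ≤ (US l).card := by
    have := totient_le (l := l) (by omega)
    omega
  obtain ⟨T, hT, hTc⟩ := Finset.exists_subset_card_eq hcard
  let E := T.equivFinOfCardEq hTc
  have hU : ∀ j, IsU l (E.symm j).1 := fun j => mem_US.1 (hT (E.symm j).2)
  choose e he using fun j => hgood _ (hU j)
  refine many (l := l) (by omega) (fun j => mkData i hi hil hpar2
    ((E.symm j).1 : ZMod (2 * l + 1)) (hU j).unit (e j) (he j).sg (he j).T) ?_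
  intro j j' hjj k hk m hm ht
  have hne : (E.symm j).1 ≠ (E.symm j').1 := by
    intro h
    exact hjj (E.symm.injective (Subtype.ext h))
  refine tokens_ne hl hpar hi hil (hU j) (hU j') hne (he j) (he j') hk hm ?_
  have e1 : k % l = k := Nat.mod_eq_of_lt hk
  have e2 : m % l = m := Nat.mod_eq_of_lt hm
  unfold TE yr
  simp only [mkData, e1, e2] at ht
  exact ht

end Pool.Agent.FR
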