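import Pool.Agent.Hhelper34.FR.Hit

/-! The choice of signs. -/

namespace Pool.Agent.FR

open Finset

variable {l : ℕ}

open Classical in
/-- Negative signs exactly on the hits. -/
noncomputable def e0 (l i : ℕ) (w : ZMod (2 * l + 1)) (k : ℕ) : ZMod (2 * l + 1) :=
  if HI l i w k ∨ HL l i w k then -1 else 1

theorem e0_sg (i : ℕ) (w : ZMod (2 * l + 1)) (k : ℕ) : e0 l i w k = 1 ∨ e0 l i w k = -1 := by
  unfold e0
  split_ifs
  · exact Or.inr rfl
  · exact Or.inl rfl

theorem e0_one {i : ℕ} {w : ZMod (2 * l + 1)} {k : ℕ} (h : ¬ (HI l i w k ∨ HL l i w k)) :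
    e0 l i w k = 1 := if_neg h

theorem e0_neg {i : ℕ} {w : ZMod (2 * l + 1)} {k : ℕ} (h : HI l i w k ∨ HL l i w k) :
    e0 l i w k = -1 := if_pos h

theorem e0_e1 {i : ℕ} (hi : 0 < i) (w : ZMod (2 * l + 1)) : e0 l i w (i - 1) = 1 := by
  refine e0_one ?_
  rintro (h | h)
  · exact h.2.1 (by omega)
  · exact h.2.1 (by omega)

theorem e0_e2 {i : ℕ} (w : ZMod (2 * l + 1)) : e0 l i w (l - 1) = 1 := by
  refine e0_one ?_
  rintro (h | h)
  · have := h.1
    omega
  · have := h.1
    omega

theorem e0_n (hl : 6 ≤ l) {i k : ℕ} {a b : ZMod (2 * l + 1)} (h : Par l i a b) (hi : 0 < i)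
    (hil : i < l) (w : ZMod (2 * l + 1)) :
    ¬ HI l i (e0 l i w k * w) k ∧ ¬ HL l i (e0 l i w k * w) k := by
  by_cases hh : HI l i w k ∨ HL l i w k
  · rw [e0_neg hh, neg_one_mul]
    exact hit_neg hl h hi hil hh
  · rw [e0_one hh, one_mul]
    exact not_or.1 hh

open Classical in
theorem e0_sum (hl : 6 ≤ l) {i : ℕ} {a b : ZMod (2 * l + 1)} (h : Par l i a b) (hi : 0 < i)
    (hil : i < l) (w : ZMod (2 * l + 1))
    (hP : ∀ a < l, ∀ b < l, HI l i w a → HI l i w b → a = b)
    (hQ : ∀ a < l, ∀ b < l, HL l i w a → HL l i w b → a = b) :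
    ∃ x y : ZMod (2 * l + 1), ∑ k ∈ range l, e0 l i w k * dl l i k = 2 - 2 * x - 2 * y ∧
      (x = 0 ∨ ∃ k < l, HI l i w k ∧ x = dl l i k) ∧
      (y = 0 ∨ ∃ k < l, HL l i w k ∧ y = dl l i k) := by
  refine ⟨_, _, ?_, sum_uniq (dl l i) (HI l i w) hP, sum_uniq (dl l i) (HL l i w) hQ⟩
  unfold e0
  rw [sum_signs (dl l i) (HI l i w) (HL l i w) (fun k hk => hit_excl hl h hi hil hk.1 hk.2),
    sum_dl hil.le hi]

theorem dl_ord {i k : ℕ} (hk : k + 1 < l) (hki : k + 1 ≠ i) :
    dl l i k = 2 * k + 3 ∨ dl l i k = -(2 * k + 3) := by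
  obtain ⟨s, hs1, _, hs3⟩ := ordR (l := l) (i := i) hk hki
  rw [dl_eq, hs3]
  rcases hs1 with h | h <;> rw [h]
  · left; ring
  · right; ring

/-- The even case. -/
theorem good_even (hl : 6 ≤ l) {i : ℕ} (hp : l = 2 * i) {w : ZMod (2 * l + 1)}
    (hw : IsUnit w) : ∃ e, Good l i w e := by
  have hpar : Par l i 1 3 := Or.inl ⟨hp, rfl, rfl⟩
  have hi : 0 < i := by omega
  have hil : i < l := by omega
  have hI : ∀ k, HI l i w k → k + 2 = l := by
    intro k hk
    have hk1 := hk.1
    have h1 := hitI hpar hi hil hw hk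
    rw [one_mul] at h1
    rcases h1 with h1 | h1
    · exfalso
      refine const_ne (l := l) (a := 2 * k + 1) (by omega) (by omega) ?_
      push_cast
      linear_combination h1
    · have h2 : ((2 * k + 5 : ℕ) : ZMod (2 * l + 1)) = 0 := by
        push_cast
        linear_combination h1
      rw [ZMod.natCast_eq_zero_iff] at h2
      have := Nat.le_of_dvd (by omega) h2
      omega
  have hL : ∀ k, HL l i w k → 3 * (2 * (k : ZMod (2 * l + 1)) + 3) = 1 ∨
      3 * (2 * (k : ZMod (2 * l + 1)) + 3) = -1 := fun k hk => hitL hpar hi hil hw hk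
  obtain ⟨x, y, hsum, hx, hy⟩ := e0_sum hl hpar hi hil w
    (by
      intro a _ b _ h1 h2
      have := hI a h1
      have := hI b h2
      omega)
    (by
      intro a _ b _ h1 h2
      exact uniq3 isUnit_one h1.1 h2.1 (hL a h1) (hL b h2))
  have hx' : x = 0 ∨ x = 2 := by
    rcases hx with hx | ⟨k, _, hk, hx⟩
    · exact Or.inl hx
    · right
      have hk2 := hI k hk
      have hki : i ≤ k := by omega
      have e1 : yb l i k = (-1) ^ k * (k + 1) := yb_hi hki (by omega)
      have e2 : yb l i (k + 1) = (-1) ^ (k + 1) * ((k + 1 : ℕ) + 1) := yb_hi (by omega) (by omega)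
      have hev : (-1 : ℤ) ^ k = 1 := Even.neg_one_pow ⟨i - 1, by omega⟩
      rw [hx]
      unfold dl
      rw [e2, e1, pow_succ, hev]
      have h2 := two_l (l := l)
      have h3 : (k : ZMod (2 * l + 1)) + 2 = l := by
        have := congrArg (fun n : ℕ => (n : ZMod (2 * l + 1))) hk2
        push_cast at this
        exact this
      push_cast
      linear_combination -2 * h3 - h2
  have hy' : y = 0 ∨ 3 * y = 1 ∨ 3 * y = -1 := by
    rcases hy with hy | ⟨k, _, hk, hy⟩
    · exact Or.inl hy
    · right
      rw [hy]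
      rcases dl_ord hk.1 hk.2.1 with h1 | h1 <;> rw [h1] <;> rcases hL k hk with h2 | h2
      · exact Or.inl h2
      · exact Or.inr h2
      · right; linear_combination -h2
      · left; linear_combination -h2
  refine ⟨e0 l i w, e0_sg i w, e0_e1 hi w, e0_e2 w, fun k => (e0_n hl hpar hi hil w).1,
    fun k => (e0_n hl hpar hi hil w).2, ?_⟩
  rw [hsum]
  rcases hx' with hx' | hx' <;> rcases hy' with hy' | hy' | hy'
  · rw [hx', hy']
    convert isUnit_two (l := l) using 1
    ring
  · refine isUnit_of_three (isUnit_two_pow 2) ?_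
    rw [hx']
    linear_combination -2 * hy'
  · refine isUnit_of_three (isUnit_two_pow 3) ?_
    rw [hx']
    linear_combination -2 * hy'
  · rw [hx', hy']
    convert (isUnit_two (l := l)).neg using 1
    ring
  · refine isUnit_of_three (isUnit_two_pow 3).neg ?_
    rw [hx']
    linear_combination -2 * hy'
  · refine isUnit_of_three (isUnit_two_pow 2).neg ?_
    rw [hx']
    linear_combination -2 * hy'

/-- The odd case. -/
theorem good_odd (hl : 6 ≤ l) {i : ℕ} (hp : l + 1 = 2 * i) {w : ZMod (2 * l + 1)}
    (hw : IsUnit w) : ∃ e, Good l i w e := by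
  have hpar : Par l i 3 1 := Or.inr ⟨hp, rfl, rfl⟩
  have hi : 0 < i := by omega
  have hil : i < l := by omega
  have hLw : ∀ w' : ZMod (2 * l + 1), IsUnit w' → ∀ k, HL l i w' k → k = 0 := by
    intro w' hw' k hk
    have hk1 := hk.1
    have h1 := hitL hpar hi hil hw' hk
    rw [one_mul] at h1
    rcases h1 with h1 | h1
    · by_contra h0
      refine const_ne (l := l) (a := 2 * k) (by omega) (by omega) ?_
      push_cast
      linear_combination h1
    · exfalso
      have h2 : ((2 * k + 6 : ℕ) : ZMod (2 * l + 1)) = 0 := by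
        push_cast
        linear_combination h1
      rw [ZMod.natCast_eq_zero_iff] at h2
      obtain ⟨c, hc⟩ := h2
      rcases Nat.lt_or_ge c 2 with h3 | h3
      · interval_cases c <;> omega
      · have : (2 * l + 1) * 2 ≤ (2 * l + 1) * c := Nat.mul_le_mul_left _ h3
        omega
  have hIw : ∀ w' : ZMod (2 * l + 1), IsUnit w' → ∀ k, HI l i w' k →
      3 * (2 * (k : ZMod (2 * l + 1)) + 3) = 2 ∨
      3 * (2 * (k : ZMod (2 * l + 1)) + 3) = -2 := fun w' hw' k hk => hitI hpar hi hil hw' hk
  obtain ⟨x, y, hsum, hx, hy⟩ := e0_sum hl hpar hi hil w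
    (by
      intro a _ b _ h1 h2
      exact uniq3 isUnit_two h1.1 h2.1 (hIw w hw a h1) (hIw w hw b h2))
    (by
      intro a _ b _ h1 h2
      rw [hLw w hw a h1, hLw w hw b h2])
  have hy' : y = 0 ∨ y = 3 := by
    rcases hy with hy | ⟨k, _, hk, hy⟩
    · exact Or.inl hy
    · right
      have hk0 := hLw w hw k hk
      subst hk0
      have e1 : yb l i 0 = (-1) ^ (0 + 1) * ((0 : ℕ) + 1) := yb_lo (by omega)
      have e2 : yb l i (0 + 1) = (-1) ^ (0 + 1 + 1) * ((0 + 1 : ℕ) + 1) := yb_lo (by omega)
      rw [hy]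
      unfold dl
      rw [e2, e1]
      push_cast
      ring
  have hx' : x = 0 ∨ 3 * x = 2 ∨ 3 * x = -2 := by
    rcases hx with hx | ⟨k, _, hk, hx⟩
    · exact Or.inl hx
    · right
      rw [hx]
      rcases dl_ord hk.1 hk.2.1 with h1 | h1 <;> rw [h1] <;> rcases hIw w hw k hk with h2 | h2
      · exact Or.inl h2
      · exact Or.inr h2
      · right; linear_combination -h2
      · left; linear_combination -h2
  have basic : IsUnit (∑ k ∈ range l, e0 l i w k * dl l i k) → ∃ e, Good l i w e := fun hT =>
    ⟨e0 l i w, e0_sg i w, e0_e1 hi w, e0_e2 w, fun k => (e0_n hl hpar hi hil w).1,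
      fun k => (e0_n hl hpar hi hil w).2, hT⟩
  rcases hy' with hy' | hy' <;> rcases hx' with hx' | hx' | hx'
  · refine basic ?_
    rw [hsum, hx', hy']
    convert isUnit_two (l := l) using 1
    ring
  · refine basic ?_
    rw [hsum]
    refine isUnit_of_three (isUnit_two_pow 1) ?_
    rw [hy']
    linear_combination -2 * hx'
  · -- `3 T = 10`
    by_cases h5 : Nat.Coprime 5 (2 * l + 1)
    · refine basic ?_
      rw [hsum]
      have h5u : IsUnit ((5 : ℕ) : ZMod (2 * l + 1)) := (ZMod.isUnit_iff_coprime _ _).2 h5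
      refine isUnit_of_three (h5u.mul isUnit_two) ?_
      rw [hy']
      push_cast
      linear_combination -2 * hx'
    · -- flip the step `2` in addition
      have h5d : 5 ∣ 2 * l + 1 := by
        by_contra hnd
        exact h5 ((Nat.Prime.coprime_iff_not_dvd (by norm_num)).2 hnd)
      have no2 : ∀ w' : ZMod (2 * l + 1), IsUnit w' → ¬ HI l i w' 2 ∧ ¬ HL l i w' 2 := by
        intro w' hw'
        constructor
        · intro hh
          rcases hIw w' hw' 2 hh with h1 | h1
          · have h2 : ((19 : ℕ) : ZMod (2 * l + 1)) = 0 := by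
              push_cast
              push_cast at h1
              linear_combination h1
            rw [ZMod.natCast_eq_zero_iff] at h2
            have h3 : 5 ∣ 19 := h5d.trans h2
            omega
          · have h2 : ((23 : ℕ) : ZMod (2 * l + 1)) = 0 := by
              push_cast
              push_cast at h1
              linear_combination h1
            rw [ZMod.natCast_eq_zero_iff] at h2
            have h3 : 5 ∣ 23 := h5d.trans h2
            omega
        · intro hh
          have := hLw w' hw' 2 hh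
          omega
      have h20 : e0 l i w 2 = 1 := e0_one (not_or.2 (no2 w hw))
      have hi3 : 3 < i := by omega
      refine ⟨fun k => if k = 2 then -1 else e0 l i w k, ?_, ?_, ?_, ?_, ?_, ?_⟩
      · intro k
        by_cases hk : k = 2
        · rw [if_pos hk]
          exact Or.inr rfl
        · rw [if_neg hk]
          exact e0_sg i w k
      · rw [if_neg (by omega)]
        exact e0_e1 hi w
      · rw [if_neg (by omega)]
        exact e0_e2 w
      · intro k
        by_cases hk : k = 2
        · rw [if_pos hk, hk]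
          exact (no2 _ (isUnit_one.neg.mul hw)).1
        · rw [if_neg hk]
          exact (e0_n hl hpar hi hil w).1
      · intro k
        by_cases hk : k = 2
        · rw [if_pos hk, hk]
          exact (no2 _ (isUnit_one.neg.mul hw)).2
        · rw [if_neg hk]
          exact (e0_n hl hpar hi hil w).2
      · have hsum2 : ∑ k ∈ range l, (if k = 2 then -1 else e0 l i w k) * dl l i k
            = ∑ k ∈ range l, e0 l i w k * dl l i k - 2 * dl l i 2 := by
          have h7 : ∀ k ∈ range l, (if k = 2 then -1 else e0 l i w k) * dl l i k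
              = e0 l i w k * dl l i k - (if k = 2 then 2 * dl l i 2 else 0) := by
            intro k _
            by_cases hk : k = 2
            · rw [if_pos hk, if_pos hk, hk, h20]
              ring
            · rw [if_neg hk, if_neg hk]
              ring
          rw [Finset.sum_congr rfl h7, Finset.sum_sub_distrib, Finset.sum_ite_eq',
            if_pos (Finset.mem_range.2 (by omega))]
        have hd2 : dl l i 2 = 7 := by
          have e1 : yb l i 2 = (-1) ^ (2 + 1) * ((2 : ℕ) + 1) := yb_lo (by omega)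
          have e2 : yb l i (2 + 1) = (-1) ^ (2 + 1 + 1) * ((2 + 1 : ℕ) + 1) := yb_lo (by omega)
          unfold dl
          rw [e2, e1]
          push_cast
          ring
        rw [hsum2, hsum, hd2]
        refine isUnit_of_three (isUnit_two_pow 5).neg ?_
        rw [hy']
        linear_combination -2 * hx'
  · refine basic ?_
    rw [hsum, hx', hy']
    convert (isUnit_two_pow (l := l) 2).neg using 1
    ring
  · refine basic ?_
    rw [hsum]
    refine isUnit_of_three (isUnit_two_pow 4).neg ?_
    rw [hy']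
    linear_combination -2 * hx'
  · refine basic ?_
    rw [hsum]
    refine isUnit_of_three (isUnit_two_pow 3).neg ?_
    rw [hy']
    linear_combination -2 * hx'

end Pool.Agent.FR
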