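import Pool.Agent.Hhelper34.FR.Data

/-! Tokens: the special ones and the hits. -/

namespace Pool.Agent.FR

open Finset

variable {l : ℕ}

/-- Equality of unordered pairs. -/
def TE {R : Type*} (a b c d : R) : Prop := (a = c ∧ b = d) ∨ (a = d ∧ b = c)

theorem TE.symm {R : Type*} {a b c d : R} (h : TE a b c d) : TE c d a b := by
  rcases h with ⟨rfl, rfl⟩ | ⟨rfl, rfl⟩
  · exact Or.inl ⟨rfl, rfl⟩
  · exact Or.inr ⟨rfl, rfl⟩

theorem TE.trans {R : Type*} {a b c d e f : R} (h : TE a b c d) (h' : TE c d e f) :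
    TE a b e f := by
  rcases h with ⟨rfl, rfl⟩ | ⟨rfl, rfl⟩
  · exact h'
  · rcases h' with ⟨rfl, rfl⟩ | ⟨rfl, rfl⟩
    · exact Or.inr ⟨rfl, rfl⟩
    · exact Or.inl ⟨rfl, rfl⟩

theorem TE.neg {R : Type*} [CommRing R] {a b c d : R} (h : TE (-a) (-b) c d) :
    TE a b (-c) (-d) := by
  rcases h with ⟨h1, h2⟩ | ⟨h1, h2⟩
  · exact Or.inl ⟨by rw [← h1, neg_neg], by rw [← h2, neg_neg]⟩
  · exact Or.inr ⟨by rw [← h1, neg_neg], by rw [← h2, neg_neg]⟩

theorem TE.sum {R : Type*} [CommRing R] {a b c d : R} (h : TE a b c d) : a + b = c + d := by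
  rcases h with ⟨rfl, rfl⟩ | ⟨rfl, rfl⟩
  · rfl
  · exact add_comm _ _

theorem TE.diff {R : Type*} [CommRing R] {a b c d : R} (h : TE a b c d) :
    b - a = d - c ∨ b - a = -(d - c) := by
  rcases h with ⟨rfl, rfl⟩ | ⟨rfl, rfl⟩
  · exact Or.inl rfl
  · right; ring

/-- The base sequence modulo `2 l + 1`. -/
def yr (l i k : ℕ) : ZMod (2 * l + 1) := ((yb l i k : ℤ) : ZMod (2 * l + 1))

/-- The parity constants. -/
def Par (l i : ℕ) (a b : ZMod (2 * l + 1)) : Prop :=
  (l = 2 * i ∧ a = 1 ∧ b = 3) ∨ (l + 1 = 2 * i ∧ a = 3 ∧ b = 1)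

theorem specI {i : ℕ} {a b : ZMod (2 * l + 1)} (h : Par l i a b) (hi : 0 < i) (hil : i < l) :
    ∃ t : ZMod (2 * l + 1), (t = 1 ∨ t = -1) ∧ 2 * (yr l i (i - 1) + yr l i i) = a * t ∧
      yr l i i - yr l i (i - 1) = t := by
  obtain ⟨e1, e2⟩ := yb_spec (l := l) hil hi
  have h2 := two_l (l := l)
  refine ⟨(((-1) ^ i : ℤ) : ZMod (2 * l + 1)), ?_, ?_, ?_⟩
  · rcases sgn i with hs | hs <;> rw [hs]
    · left; simp
    · right; simp
  · unfold yr
    rw [e1, e2]
    rcases h with ⟨hp, rfl, rfl⟩ | ⟨hp, rfl, rfl⟩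
    · have h3 : (l : ZMod (2 * l + 1)) = 2 * i := by
        have := congrArg (fun n : ℕ => (n : ZMod (2 * l + 1))) hp
        push_cast at this
        exact this
      push_cast
      linear_combination (2 * (-1 : ZMod (2 * l + 1)) ^ i) * (-h3) + (-1) ^ i * h2
    · have h3 : (l : ZMod (2 * l + 1)) + 1 = 2 * i := by
        have := congrArg (fun n : ℕ => (n : ZMod (2 * l + 1))) hp
        push_cast at this
        exact this
      push_cast
      linear_combination (2 * (-1 : ZMod (2 * l + 1)) ^ i) * (-h3) + (-1) ^ i * h2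
  · unfold yr
    rw [e1, e2]
    push_cast
    ring

theorem specL {i : ℕ} {a b : ZMod (2 * l + 1)} (h : Par l i a b) (hi : 0 < i) (hil : i < l) :
    2 * (yr l i (l - 1) + yr l i l) = b ∧ 2 * (yr l i l - yr l i (l - 1)) = a := by
  have h2 := two_l (l := l)
  unfold yr
  rw [yb_last hil.le, yb_pred hil]
  rcases h with ⟨hp, rfl, rfl⟩ | ⟨hp, rfl, rfl⟩
  · have hodd : (-1 : ℤ) ^ (l - 1) = -1 := by
      rw [Odd.neg_one_pow ⟨i - 1, by omega⟩]
    rw [hodd]
    push_cast
    exact ⟨by linear_combination -h2, by linear_combination h2⟩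
  · have heven : (-1 : ℤ) ^ (l - 1) = 1 := by
      rw [Even.neg_one_pow ⟨i - 1, by omega⟩]
    rw [heven]
    push_cast
    exact ⟨by linear_combination h2, by linear_combination -h2⟩

theorem ordR {i k : ℕ} (h : k + 1 < l) (hi : k + 1 ≠ i) :
    ∃ s : ZMod (2 * l + 1), (s = 1 ∨ s = -1) ∧ yr l i k + yr l i (k + 1) = s ∧
      yr l i (k + 1) - yr l i k = s * (2 * k + 3) := by
  obtain ⟨s, hs, h1, h2⟩ := yb_ord h hi
  refine ⟨(s : ZMod (2 * l + 1)), ?_, ?_, ?_⟩
  · rcases hs with rfl | rfl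
    · left; simp
    · right; simp
  · unfold yr
    rw [← h1]
    push_cast
    rfl
  · have := congrArg (fun z : ℤ => (z : ZMod (2 * l + 1))) h2
    push_cast at this
    exact this

/-- `c u = 0` with a small constant `c` is impossible. -/
theorem smul_ne {u : ZMod (2 * l + 1)} (hu : IsUnit u) {c : ℕ} (h0 : 0 < c)
    (hc : c < 2 * l + 1) (h : (c : ZMod (2 * l + 1)) * u = 0) : False :=
  const_ne h0 hc (cancel hu h)

theorem one_ne_neg (hl : 0 < l) : (1 : ZMod (2 * l + 1)) ≠ -1 := by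
  intro h
  have h2 : ((2 : ℕ) : ZMod (2 * l + 1)) = 0 := by
    push_cast
    linear_combination h
  exact const_ne (by norm_num) (by omega) h2

/-! ### Special tokens against special tokens -/

theorem ssII (hl : 6 ≤ l) {i : ℕ} {a b : ZMod (2 * l + 1)} (h : Par l i a b) (hi : 0 < i)
    (hil : i < l) {u w : ℕ} (hu : IsU l u) (hw : IsU l w) {e : ZMod (2 * l + 1)}
    (he : e = 1 ∨ e = -1)
    (ht : TE ((u : ZMod (2 * l + 1)) * yr l i (i - 1)) (u * yr l i i)
      (e * (w * yr l i (i - 1))) (e * (w * yr l i i))) : e = 1 ∧ u = w := by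
  obtain ⟨t, ht1, hs, hd⟩ := specI h hi hil
  have h1 := ht.sum
  have h2 := ht.diff
  have huw : u = w := by
    have : (u : ZMod (2 * l + 1)) = w ∨ (u : ZMod (2 * l + 1)) = -w := by
      rcases h2 with h2 | h2 <;> rcases ht1 with ht1 | ht1 <;> rcases he with he | he <;>
        rw [ht1] at hd <;> rw [he] at h2
      · left; linear_combination h2 + (w - u : ZMod (2 * l + 1)) * hd
      · right; linear_combination h2 + (-w - u : ZMod (2 * l + 1)) * hd
      · left; linear_combination -h2 - (w - u : ZMod (2 * l + 1)) * hd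
      · right; linear_combination -h2 - (-w - u : ZMod (2 * l + 1)) * hd
      · right; linear_combination h2 + (-w - u : ZMod (2 * l + 1)) * hd
      · left; linear_combination h2 + (w - u : ZMod (2 * l + 1)) * hd
      · right; linear_combination -h2 - (-w - u : ZMod (2 * l + 1)) * hd
      · left; linear_combination -h2 - (w - u : ZMod (2 * l + 1)) * hd
    rcases this with h3 | h3
    · exact hu.eq hw h3
    · exact absurd h3 (hu.ne_neg hw)
  refine ⟨?_, huw⟩
  rcases he with he | he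
  · exact he
  · exfalso
    subst huw
    rw [he] at h1
    -- 2 a t u = 0
    have h3 : a * (2 * t * u) = 0 := by
      linear_combination 2 * h1 - 2 * (u : ZMod (2 * l + 1)) * hs
    have h4 : ∃ c : ℕ, 0 < c ∧ c < 2 * l + 1 ∧ (c : ZMod (2 * l + 1)) * u = 0 := by
      rcases h with ⟨_, ha, _⟩ | ⟨_, ha, _⟩ <;> rw [ha] at h3 <;> rcases ht1 with ht1 | ht1 <;>
        rw [ht1] at h3
      · exact ⟨2, by norm_num, by omega, by push_cast; linear_combination h3⟩
      · exact ⟨2, by norm_num, by omega, by push_cast; linear_combination -h3⟩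
      · exact ⟨6, by norm_num, by omega, by push_cast; linear_combination h3⟩
      · exact ⟨6, by norm_num, by omega, by push_cast; linear_combination -h3⟩
    obtain ⟨c, hc0, hc1, hc2⟩ := h4
    exact smul_ne hu.unit hc0 hc1 hc2

theorem ssLL (hl : 6 ≤ l) {i : ℕ} {a b : ZMod (2 * l + 1)} (h : Par l i a b) (hi : 0 < i)
    (hil : i < l) {u w : ℕ} (hu : IsU l u) (hw : IsU l w) {e : ZMod (2 * l + 1)}
    (he : e = 1 ∨ e = -1)
    (ht : TE ((u : ZMod (2 * l + 1)) * yr l i (l - 1)) (u * yr l i l)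
      (e * (w * yr l i (l - 1))) (e * (w * yr l i l))) : e = 1 ∧ u = w := by
  obtain ⟨hs, hd⟩ := specL h hi hil
  have h1 := ht.sum
  have h2 := ht.diff
  rcases h with ⟨_, ha, hb⟩ | ⟨_, ha, hb⟩
  · rw [ha] at hd
    rw [hb] at hs
    have huw : u = w := by
      have : (u : ZMod (2 * l + 1)) = w ∨ (u : ZMod (2 * l + 1)) = -w := by
        rcases h2 with h2 | h2 <;> rcases he with he | he <;> rw [he] at h2
        · left; linear_combination 2 * h2 + (w - u : ZMod (2 * l + 1)) * hd
        · right; linear_combination 2 * h2 + (-w - u : ZMod (2 * l + 1)) * hd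
        · right; linear_combination 2 * h2 + (-w - u : ZMod (2 * l + 1)) * hd
        · left; linear_combination 2 * h2 + (w - u : ZMod (2 * l + 1)) * hd
      rcases this with h3 | h3
      · exact hu.eq hw h3
      · exact absurd h3 (hu.ne_neg hw)
    refine ⟨?_, huw⟩
    rcases he with he | he
    · exact he
    · exfalso
      subst huw
      rw [he] at h1
      refine smul_ne hu.unit (c := 6) (by norm_num) (by omega) ?_
      push_cast
      linear_combination 2 * h1 - 2 * (u : ZMod (2 * l + 1)) * hs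
  · rw [hb] at hs
    rcases he with he | he <;> rw [he] at h1
    · refine ⟨he, hu.eq hw ?_⟩
      linear_combination 2 * h1 + (w - u : ZMod (2 * l + 1)) * hs
    · exfalso
      refine hu.ne_neg hw ?_
      linear_combination 2 * h1 + (-w - u : ZMod (2 * l + 1)) * hs

theorem ssIL (hl : 6 ≤ l) {i : ℕ} {a b : ZMod (2 * l + 1)} (h : Par l i a b) (hi : 0 < i)
    (hil : i < l) {u w : ℕ} (hu : IsU l u) (hw : IsU l w) {e : ZMod (2 * l + 1)}
    (he : e = 1 ∨ e = -1)
    (ht : TE ((u : ZMod (2 * l + 1)) * yr l i (i - 1)) (u * yr l i i)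
      (e * (w * yr l i (l - 1))) (e * (w * yr l i l))) : False := by
  obtain ⟨t, ht1, hs, hd⟩ := specI h hi hil
  obtain ⟨hs', hd'⟩ := specL h hi hil
  have h1 := ht.sum
  have h2 := ht.diff
  -- `a t u = e b w` and `2 t u = ± e a w`
  have k1 : a * t * u = e * b * w := by
    linear_combination 2 * h1 - (u : ZMod (2 * l + 1)) * hs + e * (w : ZMod (2 * l + 1)) * hs'
  have k2 : 2 * t * u = e * a * w ∨ 2 * t * u = -(e * a * w) := by
    rcases h2 with h2 | h2
    · left
      linear_combination 2 * h2 - 2 * (u : ZMod (2 * l + 1)) * hd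
        + e * (w : ZMod (2 * l + 1)) * hd'
    · right
      linear_combination 2 * h2 - 2 * (u : ZMod (2 * l + 1)) * hd
        - e * (w : ZMod (2 * l + 1)) * hd'
  have hee : e * e = 1 := by
    rcases he with he | he <;> rw [he] <;> ring
  have htt : t * t = 1 := by
    rcases ht1 with ht1 | ht1 <;> rw [ht1] <;> ring
  rcases h with ⟨_, ha, hb⟩ | ⟨_, ha, hb⟩ <;> rw [ha, hb] at k1 <;> rw [ha] at k2
  · -- `t u = 3 e w`, `2 t u = ± e w`
    rcases k2 with k2 | k2
    · refine smul_ne hw.unit (c := 5) (by norm_num) (by omega) ?_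
      push_cast
      linear_combination e * k2 - 2 * e * k1 - 5 * (w : ZMod (2 * l + 1)) * hee
    · refine smul_ne hw.unit (c := 7) (by norm_num) (by omega) ?_
      push_cast
      linear_combination e * k2 - 2 * e * k1 - 7 * (w : ZMod (2 * l + 1)) * hee
  · -- `3 t u = e w`, `2 t u = ± 3 e w`
    rcases k2 with k2 | k2
    · refine smul_ne hu.unit (c := 7) (by norm_num) (by omega) ?_
      push_cast
      linear_combination 3 * t * k1 - t * k2 - 7 * (u : ZMod (2 * l + 1)) * htt
    · refine smul_ne hu.unit (c := 11) (by norm_num) (by omega) ?_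
      push_cast
      linear_combination 3 * t * k1 + t * k2 - 11 * (u : ZMod (2 * l + 1)) * htt

end Pool.Agent.FR
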