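import Pool.Agent.Hhelper34.FB.Defs

/-! Rainbow cycles of the flip graph from closed sequences. -/

namespace Pool.Agent.FR

open Pool.Agent.FB

section Seq

variable {V : Type*} {G : SimpleGraph V}

/-- The walk along a sequence of consecutively adjacent vertices. -/
def seqWalk (f : ℕ → V) (h : ∀ i, G.Adj (f i) (f (i + 1))) : ∀ N : ℕ, G.Walk (f 0) (f N)
  | 0 => SimpleGraph.Walk.nil
  | N + 1 => (seqWalk f h N).concat (h N)

theorem edges_seqWalk (f : ℕ → V) (h : ∀ i, G.Adj (f i) (f (i + 1))) (N : ℕ) :
    (seqWalk f h N).edges = (List.range N).map (fun i => s(f i, f (i + 1))) := by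
  induction N with
  | zero => rfl
  | succ N ih =>
    show ((seqWalk f h N).concat (h N)).edges = _
    rw [SimpleGraph.Walk.edges_concat, ih, List.range_succ, List.map_append]
    simp

theorem support_seqWalk (f : ℕ → V) (h : ∀ i, G.Adj (f i) (f (i + 1))) (N : ℕ) :
    (seqWalk f h N).support = (List.range (N + 1)).map f := by
  induction N with
  | zero => rfl
  | succ N ih =>
    show ((seqWalk f h N).concat (h N)).support = _
    rw [SimpleGraph.Walk.support_concat, ih, List.range_succ (n := N + 1), List.map_append]
    simp

end Seq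

/-- A closed sequence of `N` distinct vertices, consecutive ones adjacent, whose colours run
through all transpositions once, gives a rainbow cycle. -/
theorem rainbow_of_seq {n N : ℕ} (f g : ℕ → Pr n)
    (hadj : ∀ i, (flipGraph n).Adj (f i) (f (i + 1)))
    (hcol : ∀ i, colour n s(f i, f (i + 1)) = (g i).1) (hN : 0 < N) (hf0 : f N = f 0)
    (hf : ∀ i < N, ∀ j < N, f i = f j → i = j)
    (hg : ∀ i < N, ∀ j < N, g i = g j → i = j)
    (hgs : ∀ t, ∃ i < N, g i = t) :
    ∃ w : (flipGraph n).Walk (f 0) (f 0), IsRainbowCycle w ∧
      ∀ e, e ∈ w.edges ↔ ∃ i < N, e = s(f i, f (i + 1)) := by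
  refine ⟨(seqWalk f hadj N).copy rfl hf0, ⟨?_, ?_⟩, ?_⟩
  · rw [SimpleGraph.Walk.isCycle_def]
    have hed : ((seqWalk f hadj N).copy rfl hf0).edges
        = (List.range N).map (fun i => s(f i, f (i + 1))) := by
      rw [SimpleGraph.Walk.edges_copy, edges_seqWalk]
    have hcolmap : ((List.range N).map (fun i => s(f i, f (i + 1)))).map (colour n)
        = (List.range N).map (fun i => (g i).1) := by
      rw [List.map_map]
      exact List.map_congr_left fun i _ => hcol i
    refine ⟨?_, ?_, ?_⟩
    · refine ⟨?_⟩
      rw [hed]
      refine List.Nodup.of_map (colour n) ?_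
      rw [hcolmap]
      refine List.Nodup.map_on ?_ List.nodup_range
      intro i hi j hj hij
      exact hg i (List.mem_range.1 hi) j (List.mem_range.1 hj) (Subtype.ext hij)
    · intro hnil
      have : ((seqWalk f hadj N).copy rfl hf0).edges = [] := by rw [hnil]; rfl
      rw [hed] at this
      have h2 := congrArg List.length this
      simp at h2
      omega
    · rw [SimpleGraph.Walk.support_copy, support_seqWalk]
      have : (List.range (N + 1)).map f = f 0 :: (List.range N).map (fun i => f (i + 1)) := by
        rw [List.range_succ_eq_map, List.map_cons, List.map_map]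
        rfl
      rw [this, List.tail_cons]
      refine List.Nodup.map_on ?_ List.nodup_range
      intro i hi j hj hij
      rw [List.mem_range] at hi hj
      rcases Nat.lt_or_ge (i + 1) N with hi' | hi'
      · rcases Nat.lt_or_ge (j + 1) N with hj' | hj'
        · have := hf _ hi' _ hj' hij
          omega
        · have hj2 : j + 1 = N := by omega
          rw [hj2, hf0] at hij
          have := hf _ hi' _ hN hij
          omega
      · have hi2 : i + 1 = N := by omega
        rcases Nat.lt_or_ge (j + 1) N with hj' | hj'
        · rw [hi2, hf0] at hij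
          have := hf _ hN _ hj' hij
          omega
        · omega
  · intro t
    rw [SimpleGraph.Walk.edges_copy, edges_seqWalk, List.map_map]
    have : (List.range N).map (colour n ∘ fun i => s(f i, f (i + 1)))
        = (List.range N).map (fun i => (g i).1) :=
      List.map_congr_left fun i _ => hcol i
    rw [this]
    refine List.count_eq_one_of_mem ?_ ?_
    · refine List.Nodup.map_on ?_ List.nodup_range
      intro i hi j hj hij
      exact hg i (List.mem_range.1 hi) j (List.mem_range.1 hj) (Subtype.ext hij)
    · obtain ⟨i, hi, hit⟩ := hgs t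
      exact List.mem_map.2 ⟨i, List.mem_range.2 hi, by rw [hit]⟩
  · intro e
    rw [SimpleGraph.Walk.edges_copy, edges_seqWalk, List.mem_map]
    constructor
    · rintro ⟨i, hi, rfl⟩
      exact ⟨i, List.mem_range.1 hi, rfl⟩
    · rintro ⟨i, hi, rfl⟩
      exact ⟨i, List.mem_range.2 hi, rfl⟩

end Pool.Agent.FR
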